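import Mathlib

/-! Unfolding over `SL(2,ℤ)` with nonnegative functions (no fundamental-domain theory needed):
`φ = 1_𝒟 / Ψ`, `Ψ z = #{g : g • z ∈ 𝒟}`. -/

namespace Pool.Agent.W165.RS

open UpperHalfPlane MeasureTheory Filter Topology
open scoped MatrixGroups ENNReal Modular

noncomputable section

instance instCountableSL : Countable SL(2, ℤ) := by
  have : Countable (Matrix (Fin 2) (Fin 2) ℤ) :=
    inferInstanceAs (Countable (Fin 2 → Fin 2 → ℤ))
  exact inferInstanceAs (Countable {A : Matrix (Fin 2) (Fin 2) ℤ // A.det = 1})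

/-- the finite set of `g` that can map a point of `𝒟` to a point of `𝒟` -/
def KK : Finset SL(2, ℤ) :=
  open ModularGroup in
  {1, -1, T, -T, T⁻¹, -T⁻¹, S, -S, T * S, -(T * S), T⁻¹ * S * T⁻¹, -(T⁻¹ * S * T⁻¹),
    S * T⁻¹, -(S * T⁻¹), S * T, -(S * T), T * S * T, -(T * S * T), T⁻¹ * S, -(T⁻¹ * S)}

lemma mem_KK {z : ℍ} {g : SL(2, ℤ)} (hz : z ∈ 𝒟) (hg : g • z ∈ 𝒟) : g ∈ KK := by
  have := ModularGroup.cases_of_mem_fd_smul_mem_fd hz hg
  simp only [KK, Finset.mem_insert, Finset.mem_singleton]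
  grind

lemma finite_fd (z : ℍ) : {g : SL(2, ℤ) | g • z ∈ 𝒟}.Finite := by
  obtain ⟨g0, hg0⟩ := ModularGroup.exists_smul_mem_fd z
  refine Set.Finite.subset (KK.finite_toSet.image (fun g => g * g0)) ?_
  intro g hg
  refine ⟨g * g0⁻¹, ?_, by simp⟩
  have : (g * g0⁻¹) • (g0 • z) ∈ 𝒟 := by
    rw [← mul_smul]; simpa using hg
  exact_mod_cast mem_KK hg0 this

/-- multiplicity -/
def Psi (z : ℍ) : ℝ≥0∞ := ∑' g : SL(2, ℤ), Set.indicator 𝒟 (fun _ => (1 : ℝ≥0∞)) (g • z)

lemma Psi_smul (h : SL(2, ℤ)) (z : ℍ) : Psi (h • z) = Psi z := by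
  unfold Psi
  rw [← (Equiv.mulRight h).tsum_eq (fun g : SL(2, ℤ) => Set.indicator 𝒟 (fun _ => (1 : ℝ≥0∞)) (g • z))]
  refine tsum_congr fun g => ?_
  simp only [Equiv.coe_mulRight, mul_smul]

lemma Psi_ne_zero (z : ℍ) : Psi z ≠ 0 := by
  obtain ⟨g, hg⟩ := ModularGroup.exists_smul_mem_fd z
  unfold Psi
  intro h
  rw [ENNReal.tsum_eq_zero] at h
  have := h g
  rw [Set.indicator_of_mem hg] at this
  exact one_ne_zero this

lemma Psi_ne_top (z : ℍ) : Psi z ≠ ∞ := by
  unfold Psi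
  have hfin := finite_fd z
  rw [tsum_eq_sum (s := hfin.toFinset)]
  · refine (ENNReal.sum_lt_top.2 fun g _ => ?_).ne
    by_cases h : g • z ∈ 𝒟
    · rw [Set.indicator_of_mem h]; exact ENNReal.one_lt_top
    · rw [Set.indicator_of_notMem h]; exact ENNReal.zero_lt_top
  · intro g hg
    rw [Set.indicator_of_notMem]
    intro h
    exact hg (by simpa using h)

lemma measurable_smul_SL (g : SL(2, ℤ)) : Measurable (fun z : ℍ => g • z) := by
  have h : Continuous (fun z : ℍ => g • z) :=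
    continuous_const_smul (Matrix.SpecialLinearGroup.mapGL ℝ g : GL (Fin 2) ℝ)
  exact h.measurable

lemma measurableSet_fd : MeasurableSet (𝒟 : Set ℍ) := ModularGroup.isClosed_fd.measurableSet

lemma measurable_Psi : Measurable Psi := by
  unfold Psi
  refine Measurable.tsum fun g => ?_
  exact (measurable_const.indicator measurableSet_fd).comp (measurable_smul_SL g)

/-- the weight -/
def phi (z : ℍ) : ℝ≥0∞ := Set.indicator 𝒟 (fun z => (Psi z)⁻¹) z

lemma measurable_phi : Measurable phi := by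
  unfold phi
  exact measurable_Psi.inv.indicator measurableSet_fd

lemma phi_le (z : ℍ) : phi z ≤ Set.indicator 𝒟 (fun _ => 1) z := by
  unfold phi
  by_cases h : z ∈ 𝒟
  · rw [Set.indicator_of_mem h, Set.indicator_of_mem h]
    rw [ENNReal.inv_le_one]
    unfold Psi
    calc (1 : ℝ≥0∞) = Set.indicator 𝒟 (fun _ => (1 : ℝ≥0∞)) ((1 : SL(2, ℤ)) • z) := by
          rw [one_smul, Set.indicator_of_mem h]
      _ ≤ _ := ENNReal.le_tsum (f := fun g : SL(2, ℤ) =>
            Set.indicator 𝒟 (fun _ => (1 : ℝ≥0∞)) (g • z)) 1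
  · rw [Set.indicator_of_notMem h]; exact zero_le

lemma phi_pos {z : ℍ} (h : z ∈ 𝒟) : phi z ≠ 0 := by
  unfold phi
  rw [Set.indicator_of_mem h]
  simpa using Psi_ne_top z

lemma tsum_phi (z : ℍ) : ∑' g : SL(2, ℤ), phi (g • z) = 1 := by
  unfold phi
  have : ∀ g : SL(2, ℤ), Set.indicator 𝒟 (fun z => (Psi z)⁻¹) (g • z) =
      Set.indicator 𝒟 (fun _ => (1 : ℝ≥0∞)) (g • z) * (Psi z)⁻¹ := by
    intro g
    by_cases h : g • z ∈ 𝒟
    · rw [Set.indicator_of_mem h, Set.indicator_of_mem h, Psi_smul, one_mul]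
    · rw [Set.indicator_of_notMem h, Set.indicator_of_notMem h, zero_mul]
  rw [tsum_congr this, ENNReal.tsum_mul_right]
  exact ENNReal.mul_inv_cancel (Psi_ne_zero z) (Psi_ne_top z)

lemma measurePreserving_SL (g : SL(2, ℤ)) :
    MeasurePreserving (fun z : ℍ => g • z) volume volume := by
  have := measurePreserving_smul (Matrix.SpecialLinearGroup.mapGL ℝ g : GL (Fin 2) ℝ)
    (volume : Measure ℍ)
  exact this

lemma lintegral_SL (g : SL(2, ℤ)) (H : ℍ → ℝ≥0∞) (hH : Measurable H) :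
    ∫⁻ z, H (g • z) = ∫⁻ z, H z :=
  (measurePreserving_SL g).lintegral_comp hH

/-- Unfolding. -/
lemma unfold (H : ℍ → ℝ≥0∞) (hH : Measurable H) :
    ∫⁻ z, H z = ∫⁻ z, phi z * ∑' g : SL(2, ℤ), H (g • z) := by
  calc ∫⁻ z, H z = ∫⁻ z, ∑' g : SL(2, ℤ), H z * phi (g • z) := by
        refine lintegral_congr fun z => ?_
        rw [ENNReal.tsum_mul_left, tsum_phi, mul_one]
    _ = ∑' g : SL(2, ℤ), ∫⁻ z, H z * phi (g • z) := by
        rw [lintegral_tsum]
        intro g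
        exact (hH.mul (measurable_phi.comp (measurable_smul_SL g))).aemeasurable
    _ = ∑' g : SL(2, ℤ), ∫⁻ z, H (g⁻¹ • z) * phi z := by
        refine tsum_congr fun g => ?_
        have := lintegral_SL g (fun z => H (g⁻¹ • z) * phi z)
          ((hH.comp (measurable_smul_SL g⁻¹)).mul measurable_phi)
        rw [← this]
        simp
    _ = ∑' g : SL(2, ℤ), ∫⁻ z, H (g • z) * phi z :=
        (Equiv.inv SL(2, ℤ)).tsum_eq (fun g : SL(2, ℤ) => ∫⁻ z, H (g • z) * phi z)
    _ = ∫⁻ z, ∑' g : SL(2, ℤ), H (g • z) * phi z := by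
        rw [lintegral_tsum]
        intro g
        exact ((hH.comp (measurable_smul_SL g)).mul measurable_phi).aemeasurable
    _ = _ := by
        refine lintegral_congr fun z => ?_
        rw [ENNReal.tsum_mul_right, mul_comm]

end

end Pool.Agent.W165.RS
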