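import Mathlib
import Pool.Agent.H21.L.R_seed8.W165.RS.Unfold

/-! `SL(2,ℤ) ≃ ℤ × {coprime pairs}` and the resulting form of the unfolding. -/

namespace Pool.Agent.W165.RS

open UpperHalfPlane MeasureTheory Filter Topology
open scoped MatrixGroups ENNReal Modular

noncomputable section

/-- coprime pairs -/
abbrev RR := {r : ℤ × ℤ // IsCoprime r.1 r.2}

lemma exists_gam (r : RR) : ∃ g : SL(2, ℤ), g 1 0 = r.1.1 ∧ g 1 1 = r.1.2 := by
  obtain ⟨⟨c, d⟩, h⟩ := r
  obtain ⟨u, v, huv⟩ := h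
  simp only at huv
  refine ⟨⟨!![v, -u; c, d], ?_⟩, by simp, by simp⟩
  rw [Matrix.det_fin_two_of]; linarith

/-- representative with given bottom row -/
def gam (r : RR) : SL(2, ℤ) := (exists_gam r).choose

lemma gam_10 (r : RR) : (gam r) 1 0 = r.1.1 := (exists_gam r).choose_spec.1
lemma gam_11 (r : RR) : (gam r) 1 1 = r.1.2 := (exists_gam r).choose_spec.2

/-- bottom row of `g` -/
def botr (g : SL(2, ℤ)) : RR := ⟨(g 1 0, g 1 1), by
  have := g.det_coe
  rw [Matrix.det_fin_two] at this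
  exact ⟨-g 0 1, g 0 0, by simp only; linarith⟩⟩

lemma botr_T (n : ℤ) (g : SL(2, ℤ)) : botr (ModularGroup.T ^ n * g) = botr g := by
  unfold botr
  apply Subtype.ext
  have h := ModularGroup.T_pow_mul_apply_one n g
  have h0 := congrFun h 0
  have h1 := congrFun h 1
  simp only [Prod.mk.injEq]
  exact ⟨h0, h1⟩

lemma botr_gam (r : RR) : botr (gam r) = r := by
  apply Subtype.ext
  simp only [botr, gam_10, gam_11]

lemma eq_T_of_botr {g h : SL(2, ℤ)} (hgh : botr g = botr h) :
    ∃ n : ℤ, g = ModularGroup.T ^ n * h := by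
  have h0 : g 1 0 = h 1 0 := congrArg (fun r : RR => r.1.1) hgh
  have h1 : g 1 1 = h 1 1 := congrArg (fun r : RR => r.1.2) hgh
  have dg := g.det_coe
  have dh := h.det_coe
  rw [Matrix.det_fin_two] at dg dh
  rw [← h0, ← h1] at dh
  refine ⟨g 0 1 * h 0 0 - g 0 0 * h 0 1, ?_⟩
  apply Matrix.SpecialLinearGroup.ext
  intro i j
  rw [Matrix.SpecialLinearGroup.coe_mul, ModularGroup.coe_T_zpow]
  fin_cases i <;> fin_cases j
  · simp only [Fin.zero_eta, Fin.isValue, Matrix.mul_apply, Fin.sum_univ_two, Matrix.of_apply,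
      Matrix.cons_val', Matrix.cons_val_zero, Matrix.cons_val_fin_one, Matrix.cons_val_one, ← h0]
    linear_combination (h 0 0) * dg - (g 0 0) * dh
  · simp only [Fin.zero_eta, Fin.isValue, Fin.mk_one, Matrix.mul_apply, Fin.sum_univ_two,
      Matrix.of_apply, Matrix.cons_val', Matrix.cons_val_zero, Matrix.cons_val_fin_one,
      Matrix.cons_val_one, ← h1]
    linear_combination (h 0 1) * dg - (g 0 1) * dh
  · simp [Matrix.mul_apply, Fin.sum_univ_two, h0]
  · simp [Matrix.mul_apply, Fin.sum_univ_two, h1]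

/-- `ℤ × RR ≃ SL(2,ℤ)` -/
def eqv : RR × ℤ ≃ SL(2, ℤ) :=
  Equiv.ofBijective (fun x => ModularGroup.T ^ x.2 * gam x.1) (by
    constructor
    · rintro ⟨r, n⟩ ⟨r', n'⟩ h
      simp only at h
      have h1 := congrArg botr h
      rw [botr_T, botr_T, botr_gam, botr_gam] at h1
      subst h1
      have h2 := mul_right_cancel h
      have h3 := congrArg (fun g : SL(2, ℤ) => g 0 1) h2
      simp only [ModularGroup.coe_T_zpow] at h3
      simp at h3
      rw [h3]
    · intro g
      obtain ⟨n, hn⟩ := eq_T_of_botr (g := g) (h := gam (botr g)) (by rw [botr_gam])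
      exact ⟨(botr g, n), hn.symm⟩)

lemma eqv_apply (r : RR) (n : ℤ) : eqv (r, n) = ModularGroup.T ^ n * gam r := rfl

/-- the strip -/
def SS : Set ℍ := {z | 0 ≤ z.re ∧ z.re < 1}

lemma measurableSet_SS : MeasurableSet SS := by
  have h : Measurable (fun z : ℍ => z.re) := UpperHalfPlane.continuous_re.measurable
  exact (measurableSet_le measurable_const h).inter (measurableSet_lt h measurable_const)

lemma tsum_strip (H : ℍ → ℝ≥0∞) (hT : ∀ (n : ℤ) z, H (ModularGroup.T ^ n • z) = H z) (z : ℍ) :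
    ∑' n : ℤ, SS.indicator H (ModularGroup.T ^ n • z) = H z := by
  rw [tsum_eq_single (-⌊z.re⌋)]
  · rw [Set.indicator_of_mem, hT]
    constructor
    · rw [ModularGroup.re_T_zpow_smul]; push_cast; linarith [Int.floor_le z.re]
    · rw [ModularGroup.re_T_zpow_smul]; push_cast; linarith [Int.lt_floor_add_one z.re]
  · intro n hn
    rw [Set.indicator_of_notMem]
    rintro ⟨h1, h2⟩
    rw [ModularGroup.re_T_zpow_smul] at h1 h2
    apply hn
    have : ⌊z.re⌋ = -n := by
      rw [Int.floor_eq_iff]; push_cast; constructor <;> linarith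
    omega

/-- Unfolding in terms of coprime pairs. -/
lemma unfold_strip (H : ℍ → ℝ≥0∞) (hH : Measurable H)
    (hT : ∀ (n : ℤ) z, H (ModularGroup.T ^ n • z) = H z) :
    ∫⁻ z in SS, H z = ∫⁻ z, phi z * ∑' r : RR, H (gam r • z) := by
  rw [← lintegral_indicator measurableSet_SS, unfold _ (hH.indicator measurableSet_SS)]
  refine lintegral_congr fun z => ?_
  congr 1
  rw [← eqv.tsum_eq, ENNReal.tsum_prod']
  refine tsum_congr fun r => ?_
  rw [← tsum_strip H hT (gam r • z)]
  refine tsum_congr fun n => ?_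
  rw [eqv_apply, mul_smul]

lemma normSq_denom (r : RR) (z : ℍ) :
    Complex.normSq (denom (gam r) z) = ‖(r.1.1 : ℂ) * z + r.1.2‖ ^ 2 := by
  rw [Complex.normSq_eq_norm_sq]
  congr 2
  rw [ModularGroup.denom_apply, gam_10, gam_11]

lemma im_gam (r : RR) (z : ℍ) : (gam r • z).im = z.im / ‖(r.1.1 : ℂ) * z + r.1.2‖ ^ 2 := by
  rw [ModularGroup.im_smul_eq_div_normSq, normSq_denom]

end

end Pool.Agent.W165.RS
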