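import Mathlib

/-! Euler-Maclaurin of order zero for sums over `ℤ`. -/

namespace Pool.Agent.W165.RS

open MeasureTheory Filter Topology
open scoped ENNReal

noncomputable section

lemma EM {f f' : ℝ → ℝ} (hf : ∀ x, HasDerivAt f (f' x) x) (hi : Integrable f)
    (hi' : Integrable f') :
    Summable (fun j : ℤ => f j) ∧ |∑' j : ℤ, f j - ∫ x, f x| ≤ ∫ x, |f' x| := by
  have hcf : Continuous f := continuous_iff_continuousAt.2 fun x => (hf x).continuousAt
  have h1 := hi.hasSum_intervalIntegral 0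
  have h2 := hi'.abs.hasSum_intervalIntegral 0
  simp only [zero_add] at h1 h2
  have key : ∀ j : ℤ, |f j - ∫ x in (j:ℝ)..(j:ℝ) + 1, f x| ≤ ∫ x in (j:ℝ)..(j:ℝ) + 1, |f' x| := by
    intro j
    have e1 : f j - ∫ x in (j:ℝ)..(j:ℝ) + 1, f x = ∫ x in (j:ℝ)..(j:ℝ) + 1, (f j - f x) := by
      rw [intervalIntegral.integral_sub (by simp) hi.intervalIntegrable]
      simp
    rw [e1]
    have hb : ∀ x ∈ Set.Icc (j:ℝ) ((j:ℝ) + 1), |f j - f x| ≤ ∫ x in (j:ℝ)..(j:ℝ) + 1, |f' x| := by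
      intro x hx
      have e2 : ∫ y in (j:ℝ)..x, f' y = f x - f j :=
        intervalIntegral.integral_eq_sub_of_hasDerivAt (fun y _ => hf y) hi'.intervalIntegrable
      rw [abs_sub_comm, ← e2]
      calc |∫ y in (j:ℝ)..x, f' y| ≤ ∫ y in (j:ℝ)..x, |f' y| :=
            intervalIntegral.abs_integral_le_integral_abs hx.1
        _ ≤ ∫ y in (j:ℝ)..(j:ℝ) + 1, |f' y| := by
            apply intervalIntegral.integral_mono_interval le_rfl hx.1 hx.2
            · exact Eventually.of_forall fun y => abs_nonneg _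
            · exact hi'.abs.intervalIntegrable
    calc |∫ x in (j:ℝ)..(j:ℝ) + 1, (f j - f x)|
        ≤ (∫ x in (j:ℝ)..(j:ℝ) + 1, |f' x|) * |(j:ℝ) + 1 - j| := by
          have := intervalIntegral.norm_integral_le_of_norm_le_const
            (a := (j:ℝ)) (b := (j:ℝ) + 1) (f := fun x => f j - f x)
            (C := ∫ x in (j:ℝ)..(j:ℝ) + 1, |f' x|) (by
              intro x hx
              rw [Set.uIoc_of_le (by linarith)] at hx
              exact hb x ⟨hx.1.le, hx.2⟩)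
          exact this
      _ = _ := by simp
  have hs : Summable (fun j : ℤ => f j - ∫ x in (j:ℝ)..(j:ℝ) + 1, f x) :=
    Summable.of_norm_bounded h2.summable key
  have hsf : Summable (fun j : ℤ => f j) := by
    have := hs.add h1.summable
    simpa using this
  refine ⟨hsf, ?_⟩
  rw [← h1.tsum_eq, ← h2.tsum_eq, ← hsf.tsum_sub h1.summable]
  calc |∑' j : ℤ, (f j - ∫ x in (j:ℝ)..(j:ℝ) + 1, f x)|
      ≤ ∑' j : ℤ, |f j - ∫ x in (j:ℝ)..(j:ℝ) + 1, f x| := by
        have := norm_tsum_le_tsum_norm hs.norm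
        exact this
    _ ≤ _ := hs.abs.tsum_le_tsum key h2.summable

lemma EM2 {g g' : ℝ → ℝ} (hg : ∀ x, HasDerivAt g (g' x) x) (hi : Integrable g)
    (hi' : Integrable g') {β : ℝ} (hβ : 0 < β) (τ : ℝ) :
    Summable (fun j : ℤ => g (β * j + τ)) ∧
      |∑' j : ℤ, g (β * j + τ) - β⁻¹ * ∫ x, g x| ≤ ∫ x, |g' x| := by
  have h1 : ∀ x, HasDerivAt (fun x => g (β * x + τ)) (β * g' (β * x + τ)) x := by
    intro x
    have := (hg (β * x + τ)).comp x (((hasDerivAt_id x).const_mul β).add_const τ)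
    simpa [mul_comm, Function.comp_def] using this
  have hci : ∀ h : ℝ → ℝ, Integrable h → Integrable (fun x => h (β * x + τ)) := by
    intro h hh
    exact (hh.comp_add_right τ).comp_mul_left' hβ.ne'
  have hint : ∀ h : ℝ → ℝ, ∫ x, h (β * x + τ) = β⁻¹ * ∫ x, h x := by
    intro h
    have e1 := Measure.integral_comp_mul_left (fun y => h (y + τ)) β
    rw [e1, integral_add_right_eq_self, abs_of_pos (inv_pos.2 hβ), smul_eq_mul]
  obtain ⟨hs, hb⟩ := EM h1 (hci g hi) ((hci g' hi').const_mul β)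
  refine ⟨hs, ?_⟩
  rw [hint g] at hb
  refine hb.trans (le_of_eq ?_)
  have : ∀ x, |β * g' (β * x + τ)| = β * (fun y => |g' y|) (β * x + τ) := by
    intro x; rw [abs_mul, abs_of_pos hβ]
  simp_rw [this]
  rw [integral_const_mul, hint (fun y => |g' y|), ← mul_assoc, mul_inv_cancel₀ hβ.ne', one_mul]

/-- `(1+t²)^(-s)` -/
def gs (s : ℝ) (t : ℝ) : ℝ := (1 + t ^ 2) ^ (-s)

def gs' (s : ℝ) (t : ℝ) : ℝ := -(2 * s) * t * (1 + t ^ 2) ^ (-s - 1)

lemma hasDerivAt_gs (s t : ℝ) : HasDerivAt (gs s) (gs' s t) t := by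
  unfold gs gs'
  have h0 : HasDerivAt (fun t : ℝ => 1 + t ^ 2) (2 * t) t := by
    simpa using ((hasDerivAt_pow 2 t).const_add 1)
  have := h0.rpow_const (p := -s) (Or.inl (by positivity))
  convert this using 1
  ring

lemma gs_nonneg (s t : ℝ) : 0 ≤ gs s t := by unfold gs; positivity

lemma gs_le {s : ℝ} (hs : 1 ≤ s) (t : ℝ) : gs s t ≤ (1 + t ^ 2)⁻¹ := by
  unfold gs
  rw [← Real.rpow_neg_one]
  exact Real.rpow_le_rpow_of_exponent_le (by nlinarith [sq_nonneg t]) (by linarith)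

lemma gs'_le {s : ℝ} (hs : 1 ≤ s) (hs2 : s ≤ 2) (t : ℝ) : |gs' s t| ≤ 4 * (1 + t ^ 2)⁻¹ := by
  unfold gs'
  have h0 : (0:ℝ) < 1 + t ^ 2 := by positivity
  rw [abs_mul, abs_mul, abs_neg, abs_of_pos (by linarith : (0:ℝ) < 2 * s),
    abs_of_pos (Real.rpow_pos_of_pos h0 _)]
  have h1 : |t| ≤ 1 + t ^ 2 := by
    rcases abs_cases t with ⟨h, _⟩ | ⟨h, _⟩ <;> rw [h] <;> nlinarith [sq_nonneg (t - 1), sq_nonneg (t + 1)]
  have h2 : (1 + t ^ 2) ^ (-s - 1) ≤ (1 + t ^ 2) ^ (-2 : ℝ) :=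
    Real.rpow_le_rpow_of_exponent_le (by nlinarith [sq_nonneg t]) (by linarith)
  calc 2 * s * |t| * (1 + t ^ 2) ^ (-s - 1) ≤ 2 * 2 * (1 + t ^ 2) * (1 + t ^ 2) ^ (-2 : ℝ) := by
        gcongr
    _ = 4 * (1 + t ^ 2)⁻¹ := by
        rw [Real.rpow_neg h0.le, Real.rpow_two]
        field_simp
        ring

lemma continuous_gs (s : ℝ) : Continuous (gs s) :=
  continuous_iff_continuousAt.2 fun x => (hasDerivAt_gs s x).continuousAt

lemma continuous_gs' (s : ℝ) : Continuous (gs' s) := by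
  unfold gs'
  refine Continuous.mul (by fun_prop) ?_
  exact (by fun_prop : Continuous fun t : ℝ => 1 + t ^ 2).rpow_const
    (fun t => Or.inl (by positivity))

lemma integrable_gs {s : ℝ} (hs : 1 ≤ s) : Integrable (gs s) := by
  refine integrable_inv_one_add_sq.mono' (continuous_gs s).aestronglyMeasurable ?_
  exact Eventually.of_forall fun t => by
    rw [Real.norm_of_nonneg (gs_nonneg s t)]; exact gs_le hs t

lemma integrable_gs' {s : ℝ} (hs : 1 ≤ s) (hs2 : s ≤ 2) : Integrable (gs' s) := by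
  refine (integrable_inv_one_add_sq.const_mul 4).mono' (continuous_gs' s).aestronglyMeasurable ?_
  exact Eventually.of_forall fun t => gs'_le hs hs2 t

/-- `B s = ∫ (1+t²)^(-s)` -/
def BB (s : ℝ) : ℝ := ∫ t, gs s t

lemma BB_nonneg (s : ℝ) : 0 ≤ BB s := integral_nonneg fun t => gs_nonneg s t

lemma BB_le {s : ℝ} (hs : 1 ≤ s) : BB s ≤ Real.pi := by
  rw [← integral_univ_inv_one_add_sq]
  exact integral_mono (integrable_gs hs) integrable_inv_one_add_sq (gs_le hs)

lemma int_gs'_le {s : ℝ} (hs : 1 ≤ s) (hs2 : s ≤ 2) : ∫ t, |gs' s t| ≤ 4 * Real.pi := by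
  rw [← integral_univ_inv_one_add_sq, ← integral_const_mul]
  exact integral_mono (integrable_gs' hs hs2).abs (integrable_inv_one_add_sq.const_mul 4)
    (gs'_le hs hs2)

lemma BB_tendsto : Tendsto BB (𝓝[>] 1) (𝓝 Real.pi) := by
  rw [← integral_univ_inv_one_add_sq]
  unfold BB
  apply tendsto_integral_filter_of_dominated_convergence (fun t : ℝ => (1 + t ^ 2)⁻¹)
  · exact Eventually.of_forall fun s => (continuous_gs s).aestronglyMeasurable
  · filter_upwards [self_mem_nhdsWithin] with s hs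
    exact Eventually.of_forall fun t => by
      rw [Real.norm_of_nonneg (gs_nonneg s t)]; exact gs_le (le_of_lt hs) t
  · exact integrable_inv_one_add_sq
  · refine Eventually.of_forall fun t => ?_
    have h0 : (0:ℝ) < 1 + t ^ 2 := by positivity
    have : Tendsto (fun s : ℝ => (1 + t ^ 2) ^ (-s)) (𝓝 1) (𝓝 ((1 + t ^ 2) ^ (-1 : ℝ))) :=
      (Real.continuous_const_rpow h0.ne').continuousAt.tendsto.comp (continuous_neg.tendsto 1)
    rw [Real.rpow_neg_one] at this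
    exact this.mono_left nhdsWithin_le_nhds

/-- The one-dimensional sum. -/
lemma sum_line {s : ℝ} (hs : 1 < s) (hs2 : s ≤ 2) {N α : ℝ} (hN : 0 < N) (hα : 0 < α) (θ : ℝ) :
    Summable (fun j : ℤ => ((θ + N * j) ^ 2 + α ^ 2) ^ (-s)) ∧
    |∑' j : ℤ, ((θ + N * j) ^ 2 + α ^ 2) ^ (-s) - N⁻¹ * α ^ (1 - 2 * s) * BB s|
      ≤ 4 * Real.pi * α ^ (-(2 * s)) := by
  have hβ : 0 < N / α := by positivity
  obtain ⟨h1, h2⟩ := EM2 (hasDerivAt_gs s) (integrable_gs hs.le) (integrable_gs' hs.le hs2) hβ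
    (θ / α)
  have e : ∀ j : ℤ, ((θ + N * j) ^ 2 + α ^ 2) ^ (-s) = α ^ (-(2 * s)) * gs s (N / α * j + θ / α) := by
    intro j
    unfold gs
    have e1 : (θ + N * j) ^ 2 + α ^ 2 = α ^ 2 * (1 + (N / α * j + θ / α) ^ 2) := by
      field_simp
      ring
    rw [e1, Real.mul_rpow (by positivity) (by positivity), ← Real.rpow_natCast α 2,
      ← Real.rpow_mul hα.le]
    congr 2
    push_cast; ring
  simp_rw [e]
  refine ⟨h1.mul_left _, ?_⟩
  rw [tsum_mul_left]
  have e2 : N⁻¹ * α ^ (1 - 2 * s) * BB s = α ^ (-(2 * s)) * ((N / α)⁻¹ * ∫ x, gs s x) := by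
    rw [show (1 - 2 * s) = -(2 * s) + 1 by ring, Real.rpow_add hα, Real.rpow_one]
    unfold BB
    field_simp
  rw [e2, ← mul_sub, abs_mul, abs_of_pos (Real.rpow_pos_of_pos hα _), mul_comm (4 * Real.pi)]
  gcongr
  exact h2.trans (int_gs'_le hs.le hs2)

end

end Pool.Agent.W165.RS
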