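import Mathlib
import Pool.Agent.H21.L.R_seed8.W165.RS.EM

/-! Sums over arithmetic progressions as `σ → 1+`. -/

namespace Pool.Agent.W165.RS

open MeasureTheory Filter Topology
open scoped ENNReal

noncomputable section

set_option linter.unusedSectionVars false

variable {N : ℕ} [NeZero N]

/-- real term -/
def ht (c : ZMod N) (σ : ℝ) (n : ℕ) : ℝ := if n ≠ 0 ∧ (n : ZMod N) = c then (n : ℝ) ^ (-σ) else 0

lemma ht_nonneg (c : ZMod N) (σ : ℝ) (n : ℕ) : 0 ≤ ht c σ n := by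
  unfold ht; split_ifs <;> positivity

lemma summable_ht (c : ZMod N) {σ : ℝ} (hσ : 1 < σ) : Summable (ht c σ) := by
  refine Summable.of_nonneg_of_le (ht_nonneg c σ) (fun n => ?_)
    (Real.summable_nat_rpow.2 (by linarith : -σ < -1))
  unfold ht
  split_ifs
  · exact le_rfl
  · positivity

/-- `Σ_{n ≡ c} n^{-σ}` -/
def Hn (c : ZMod N) (σ : ℝ) : ℝ≥0∞ := ∑' n : ℕ, ENNReal.ofReal (ht c σ n)

lemma Hn_eq (c : ZMod N) {σ : ℝ} (hσ : 1 < σ) : Hn c σ = ENNReal.ofReal (∑' n, ht c σ n) := by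
  unfold Hn
  rw [ENNReal.ofReal_tsum_of_nonneg (ht_nonneg c σ) (summable_ht c hσ)]

lemma tsum_ht_eq (c : ZMod N) {σ : ℝ} (hσ : 1 < σ) :
    ((∑' n, ht c σ n : ℝ) : ℂ) = ZMod.LFunction (fun j : ZMod N => if j = c then (1:ℂ) else 0) σ := by
  rw [ZMod.LFunction_eq_LSeries _ (by simpa using hσ), Complex.ofReal_tsum]
  unfold LSeries
  refine tsum_congr fun n => ?_
  unfold ht LSeries.term
  by_cases h0 : n = 0
  · simp [h0]
  · by_cases h1 : (n : ZMod N) = c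
    · rw [if_pos ⟨h0, h1⟩, if_neg h0]
      beta_reduce
      rw [if_pos h1, Real.rpow_neg (by positivity)]
      push_cast
      rw [Complex.ofReal_cpow (by positivity)]
      simp [one_div]
    · rw [if_neg (by tauto), if_neg h0]
      beta_reduce
      rw [if_neg h1]
      simp

lemma tendsto_ht (c : ZMod N) :
    Tendsto (fun σ : ℝ => (σ - 1) * ∑' n, ht c σ n) (𝓝[>] 1) (𝓝 (N : ℝ)⁻¹) := by
  have h := ZMod.LFunction_residue_one (fun j : ZMod N => if j = c then (1:ℂ) else 0)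
  have h2 : (∑ j : ZMod N, (if j = c then (1:ℂ) else 0)) / N = ((N : ℝ)⁻¹ : ℝ) := by
    simp
  have h2' : (∑ j : ZMod N, (if j = c then (1:ℂ) else 0) / (N:ℂ)) = ((N : ℝ)⁻¹ : ℝ) := by
    rw [← h2, Finset.sum_div]
  first
    | rw [h2] at h
    | rw [h2'] at h
  have h3 : Tendsto (fun σ : ℝ => (σ : ℂ)) (𝓝[>] 1) (𝓝[≠] 1) := by
    apply tendsto_nhdsWithin_of_tendsto_nhds_of_eventually_within
    · have : Tendsto (fun σ : ℝ => (σ : ℂ)) (𝓝 1) (𝓝 ((1:ℝ):ℂ)) :=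
        Complex.continuous_ofReal.tendsto 1
      simpa using this.mono_left nhdsWithin_le_nhds
    · filter_upwards [self_mem_nhdsWithin] with σ hσ
      simp only [Set.mem_compl_iff, Set.mem_singleton_iff]
      intro h
      have : σ = 1 := by exact_mod_cast h
      exact (ne_of_gt hσ) this
  have h4 := (Complex.continuous_re.tendsto _).comp (h.comp h3)
  simp only [Complex.ofReal_re] at h4
  refine h4.congr' ?_
  filter_upwards [self_mem_nhdsWithin] with σ hσ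
  simp only [Function.comp]
  rw [← tsum_ht_eq c hσ]
  norm_cast

lemma tendsto_Hn (c : ZMod N) :
    Tendsto (fun σ : ℝ => ENNReal.ofReal (σ - 1) * Hn c σ) (𝓝[>] 1)
      (𝓝 (ENNReal.ofReal (N : ℝ)⁻¹)) := by
  have h := (ENNReal.continuous_ofReal.tendsto _).comp (tendsto_ht c)
  refine h.congr' ?_
  filter_upwards [self_mem_nhdsWithin] with σ hσ
  simp only [Function.comp]
  rw [Hn_eq c hσ, ENNReal.ofReal_mul (by linarith [Set.mem_Ioi.1 hσ])]

/-- term of `An` -/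
def aterm (a : ZMod N) (s : ℝ) (m : ℤ) : ℝ≥0∞ :=
  if m ≠ 0 ∧ (m : ZMod N) = a then ENNReal.ofReal (|(m:ℝ)| ^ (1 - 2 * s)) else 0

lemma aterm_nat (a : ZMod N) (s : ℝ) (n : ℕ) :
    aterm a s (n : ℤ) = ENNReal.ofReal (ht a (2 * s - 1) n) := by
  unfold aterm ht
  by_cases h1 : n = 0
  · subst h1; simp
  by_cases h2 : (n : ZMod N) = a
  · rw [if_pos ⟨by exact_mod_cast h1, by rw [Int.cast_natCast]; exact h2⟩, if_pos ⟨h1, h2⟩,
      Int.cast_natCast, abs_of_nonneg (by positivity : (0:ℝ) ≤ (n:ℝ))]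
    congr 2; ring
  · rw [if_neg, if_neg (fun h' => h2 h'.2), ENNReal.ofReal_zero]
    intro h'
    apply h2
    rw [← h'.2, Int.cast_natCast]

lemma aterm_neg (a : ZMod N) (s : ℝ) (n : ℕ) :
    aterm a s (-((n : ℤ) + 1)) = ENNReal.ofReal (ht (-a) (2 * s - 1) (n + 1)) := by
  unfold aterm ht
  have e1 : ((-((n:ℤ) + 1) : ℤ) : ZMod N) = a ↔ ((n + 1 : ℕ) : ZMod N) = -a := by
    push_cast
    rw [neg_eq_iff_eq_neg]
  by_cases h : ((n + 1 : ℕ) : ZMod N) = -a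
  · rw [if_pos (show (-((n:ℤ) + 1)) ≠ 0 ∧ ((-((n:ℤ) + 1) : ℤ) : ZMod N) = a from
      ⟨by omega, e1.2 h⟩), if_pos (show n + 1 ≠ 0 ∧ ((n + 1 : ℕ) : ZMod N) = -a from
      ⟨by omega, h⟩)]
    push_cast
    rw [abs_neg, abs_of_nonneg (by positivity : (0:ℝ) ≤ (n:ℝ) + 1)]
    congr 2; ring
  · rw [if_neg (show ¬ ((-((n:ℤ) + 1)) ≠ 0 ∧ ((-((n:ℤ) + 1) : ℤ) : ZMod N) = a) from
      fun h' => h (e1.1 h'.2)), if_neg (show ¬ (n + 1 ≠ 0 ∧ ((n + 1 : ℕ) : ZMod N) = -a) from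
      fun h' => h h'.2), ENNReal.ofReal_zero]

/-- `Σ_{m ≠ 0, m ≡ a} |m|^{1-2s}` -/
def An (a : ZMod N) (s : ℝ) : ℝ≥0∞ := ∑' m : ℤ, aterm a s m

lemma An_eq (a : ZMod N) (s : ℝ) : An a s = Hn a (2 * s - 1) + Hn (-a) (2 * s - 1) := by
  unfold An
  have h1 : HasSum (fun n : ℕ => aterm a s (n : ℤ)) (Hn a (2 * s - 1)) := by
    simp_rw [aterm_nat]
    exact ENNReal.summable.hasSum
  have h2 : HasSum (fun n : ℕ => aterm a s (-((n : ℤ) + 1))) (Hn (-a) (2 * s - 1)) := by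
    simp_rw [aterm_neg]
    have e2 : Hn (-a) (2 * s - 1) = ∑' n : ℕ, ENNReal.ofReal (ht (-a) (2 * s - 1) (n + 1)) := by
      unfold Hn
      rw [tsum_eq_zero_add' ENNReal.summable]
      simp [ht]
    rw [e2]
    exact ENNReal.summable.hasSum
  exact (HasSum.of_nat_of_neg_add_one h1 h2).tsum_eq

lemma tendsto_An (a : ZMod N) :
    Tendsto (fun s : ℝ => ENNReal.ofReal (s - 1) * An a s) (𝓝[>] 1)
      (𝓝 (ENNReal.ofReal (N : ℝ)⁻¹)) := by
  have h3 : Tendsto (fun s : ℝ => 2 * s - 1) (𝓝[>] 1) (𝓝[>] 1) := by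
    apply tendsto_nhdsWithin_of_tendsto_nhds_of_eventually_within
    · have : Tendsto (fun s : ℝ => 2 * s - 1) (𝓝 1) (𝓝 (2 * 1 - 1)) :=
        (by fun_prop : Continuous fun s : ℝ => 2 * s - 1).tendsto 1
      norm_num at this
      exact this.mono_left nhdsWithin_le_nhds
    · filter_upwards [self_mem_nhdsWithin] with σ hσ
      simp only [Set.mem_Ioi] at hσ ⊢
      linarith
  have h := ((tendsto_Hn a).comp h3).add ((tendsto_Hn (-a)).comp h3)
  have h5 := ENNReal.Tendsto.const_mul (a := ENNReal.ofReal (1/2)) h (Or.inr (by simp))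
  have e : ENNReal.ofReal (1/2) * (ENNReal.ofReal (N : ℝ)⁻¹ + ENNReal.ofReal (N : ℝ)⁻¹) =
      ENNReal.ofReal (N : ℝ)⁻¹ := by
    rw [← ENNReal.ofReal_add (by positivity) (by positivity), ← ENNReal.ofReal_mul (by positivity)]
    congr 1; ring
  rw [e] at h5
  refine h5.congr' ?_
  filter_upwards [self_mem_nhdsWithin] with s hs
  simp only [Function.comp, Set.mem_Ioi] at hs ⊢
  rw [An_eq, ← mul_add, ← mul_assoc, ← ENNReal.ofReal_mul (by positivity)]
  congr 2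
  ring

end

end Pool.Agent.W165.RS
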