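import Mathlib
import Pool.Agent.H21.L.R_seed8.W165.RS.EM
import Pool.Agent.H21.L.R_seed8.W165.RS.AP

/-! The lattice sums `Σ_{(m,n) ≡ (a,b) mod N} |mw+n|^{-2s}`, `s → 1+`. -/

namespace Pool.Agent.W165.RS

open MeasureTheory Filter Topology UpperHalfPlane
open scoped ENNReal

noncomputable section

set_option linter.unusedSectionVars false

variable {N : ℕ} [NeZero N]

/-- `|mw+n|²` -/
def qf (w : ℍ) (m n : ℤ) : ℝ := ‖(m : ℂ) * w + n‖ ^ 2

lemma qf_eq (w : ℍ) (m n : ℤ) : qf w m n = (m * w.re + n) ^ 2 + (|(m:ℝ)| * w.im) ^ 2 := by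
  unfold qf
  rw [← Complex.normSq_eq_norm_sq, Complex.normSq_apply]
  simp only [Complex.add_re, Complex.mul_re, Complex.intCast_re, Complex.intCast_im,
    Complex.add_im, Complex.mul_im, coe_re, coe_im]
  rw [mul_pow, sq_abs]
  ring

/-- one term -/
def zt (a b : ZMod N) (w : ℍ) (s : ℝ) (m n : ℤ) : ℝ≥0∞ :=
  if ((m, n) ≠ ((0, 0) : ℤ × ℤ)) ∧ (m : ZMod N) = a ∧ (n : ZMod N) = b then
    ENNReal.ofReal (qf w m n ^ (-s)) else 0

/-- the lattice sum -/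
def Zf (a b : ZMod N) (w : ℍ) (s : ℝ) : ℝ≥0∞ := ∑' m : ℤ, ∑' n : ℤ, zt a b w s m n

/-- `Σ_{m≠0} m^{-2}` -/
def C2 : ℝ≥0∞ := ∑' m : ℤ, if m ≠ 0 then ENNReal.ofReal (|(m:ℝ)| ^ (-2 : ℝ)) else 0

lemma C2_ne_top : C2 ≠ ∞ := by
  unfold C2
  have h : Summable (fun m : ℤ => |(m:ℝ)| ^ (-2 : ℝ)) := by
    exact Real.summable_abs_int_rpow (by norm_num)
  have h2 := h.tsum_ofReal_ne_top
  refine ne_top_of_le_ne_top h2 (ENNReal.tsum_le_tsum fun m => ?_)
  split_ifs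
  · exact le_rfl
  · exact zero_le

lemma rpow_le_sq {m : ℤ} (hm : m ≠ 0) {s : ℝ} (hs : 1 ≤ s) :
    |(m:ℝ)| ^ (-(2 * s)) ≤ |(m:ℝ)| ^ (-2 : ℝ) := by
  apply Real.rpow_le_rpow_of_exponent_le _ (by linarith)
  have : (1:ℤ) ≤ |m| := Int.one_le_abs hm
  exact_mod_cast this

lemma inner_zero (a b : ZMod N) (w : ℍ) {s : ℝ} (hs : 1 ≤ s) :
    ∑' n : ℤ, zt a b w s 0 n ≤ C2 := by
  unfold C2
  refine ENNReal.tsum_le_tsum fun n => ?_
  unfold zt
  by_cases hn : n = 0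
  · subst hn; simp
  · rw [if_pos hn]
    split_ifs
    · apply ENNReal.ofReal_le_ofReal
      refine le_trans (le_of_eq ?_) (rpow_le_sq hn hs)
      rw [qf_eq]
      simp only [Int.cast_zero, zero_mul, abs_zero, zero_add, ne_eq, OfNat.ofNat_ne_zero,
        not_false_eq_true, zero_pow, add_zero]
      rw [← sq_abs, ← Real.rpow_natCast, ← Real.rpow_mul (abs_nonneg _)]
      congr 1
      push_cast; ring
    · exact zero_le

lemma inner_ne (a b : ZMod N) (w : ℍ) (s : ℝ) {m : ℤ} (hm : (m : ZMod N) ≠ a) :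
    ∑' n : ℤ, zt a b w s m n = 0 := by
  rw [ENNReal.tsum_eq_zero]
  intro n
  unfold zt
  rw [if_neg (by tauto)]

lemma inner_eq (a b : ZMod N) (w : ℍ) (s : ℝ) {m : ℤ} (hm0 : m ≠ 0) (hm : (m : ZMod N) = a) :
    ∑' n : ℤ, zt a b w s m n = ∑' j : ℤ, ENNReal.ofReal
      (((m * w.re + (b.val : ℝ) + N * j) ^ 2 + (|(m:ℝ)| * w.im) ^ 2) ^ (-s)) := by
  have hN : (N : ℤ) ≠ 0 := by exact_mod_cast NeZero.ne N
  have hinj : Function.Injective (fun j : ℤ => (b.val : ℤ) + N * j) := by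
    intro j j' h
    simp only at h
    exact mul_left_cancel₀ hN (by linarith)
  have hsupp : Function.support (fun n : ℤ => zt a b w s m n) ⊆
      Set.range (fun j : ℤ => (b.val : ℤ) + N * j) := by
    intro n hn
    rw [Function.mem_support] at hn
    have hnb : (n : ZMod N) = b := by
      by_contra hnb
      apply hn
      unfold zt
      rw [if_neg (by tauto)]
    have h1 : ((n : ℤ) : ZMod N) = ((b.val : ℤ) : ZMod N) := by
      rw [hnb, Int.cast_natCast, ZMod.natCast_zmod_val]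
    rw [ZMod.intCast_eq_intCast_iff] at h1
    obtain ⟨k, hk⟩ := h1.symm.dvd
    exact ⟨k, by simp only; linarith⟩
  rw [← hinj.tsum_eq hsupp]
  refine tsum_congr fun j => ?_
  unfold zt
  rw [if_pos]
  · rw [qf_eq]
    push_cast
    congr 3
    ring
  · refine ⟨?_, hm, ?_⟩
    · intro h
      exact hm0 (congrArg Prod.fst h)
    · push_cast
      simp

lemma inner_bound (a b : ZMod N) (w : ℍ) {s : ℝ} (hs : 1 < s) (hs2 : s ≤ 2) {m : ℤ}
    (hm0 : m ≠ 0) (hm : (m : ZMod N) = a) :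
    ∑' n : ℤ, zt a b w s m n ≤
      ENNReal.ofReal ((N:ℝ)⁻¹ * w.im ^ (1 - 2 * s) * BB s) * aterm a s m +
      ENNReal.ofReal (4 * Real.pi * w.im ^ (-(2 * s))) * ENNReal.ofReal (|(m:ℝ)| ^ (-2 : ℝ)) ∧
    ENNReal.ofReal ((N:ℝ)⁻¹ * w.im ^ (1 - 2 * s) * BB s) * aterm a s m ≤
      ∑' n : ℤ, zt a b w s m n +
      ENNReal.ofReal (4 * Real.pi * w.im ^ (-(2 * s))) * ENNReal.ofReal (|(m:ℝ)| ^ (-2 : ℝ)) := by
  have hm1 : (0:ℝ) < |(m:ℝ)| := by positivity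
  have hα : 0 < |(m:ℝ)| * w.im := mul_pos hm1 w.im_pos
  have hN : (0:ℝ) < N := by exact_mod_cast Nat.pos_of_ne_zero (NeZero.ne N)
  obtain ⟨h1, h2⟩ := sum_line hs hs2 hN hα (m * w.re + (b.val : ℝ))
  set T := ∑' j : ℤ, ((m * w.re + (b.val : ℝ) + N * j) ^ 2 + (|(m:ℝ)| * w.im) ^ 2) ^ (-s) with hT
  have hT0 : 0 ≤ T := tsum_nonneg fun j => by positivity
  have e1 : ∑' n : ℤ, zt a b w s m n = ENNReal.ofReal T := by
    rw [inner_eq a b w s hm0 hm, hT, ENNReal.ofReal_tsum_of_nonneg (fun j => by positivity) h1]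
  have e2 : ENNReal.ofReal ((N:ℝ)⁻¹ * w.im ^ (1 - 2 * s) * BB s) * aterm a s m =
      ENNReal.ofReal ((N:ℝ)⁻¹ * (|(m:ℝ)| * w.im) ^ (1 - 2 * s) * BB s) := by
    unfold aterm
    rw [if_pos ⟨hm0, hm⟩, ← ENNReal.ofReal_mul (by have := BB_nonneg s; positivity),
      Real.mul_rpow hm1.le w.im_pos.le]
    congr 1; ring
  have e3 : (4 * Real.pi * (|(m:ℝ)| * w.im) ^ (-(2 * s))) ≤
      (4 * Real.pi * w.im ^ (-(2 * s))) * (|(m:ℝ)| ^ (-2 : ℝ)) := by
    rw [Real.mul_rpow hm1.le w.im_pos.le]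
    have := rpow_le_sq hm0 hs.le
    have h3 : 0 ≤ 4 * Real.pi * w.im ^ (-(2 * s)) := by positivity
    nlinarith
  have h3 := abs_le.1 h2
  rw [e1, e2, ← ENNReal.ofReal_mul (by positivity)]
  have hB := BB_nonneg s
  constructor
  · rw [← ENNReal.ofReal_add (by positivity) (by positivity)]
    apply ENNReal.ofReal_le_ofReal
    linarith [h3.2]
  · rw [← ENNReal.ofReal_add (by positivity) (by positivity)]
    apply ENNReal.ofReal_le_ofReal
    linarith [h3.1]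

lemma Zf_le (a b : ZMod N) (w : ℍ) {s : ℝ} (hs : 1 < s) (hs2 : s ≤ 2) :
    Zf a b w s ≤ C2 + (ENNReal.ofReal ((N:ℝ)⁻¹ * w.im ^ (1 - 2 * s) * BB s) * An a s +
      ENNReal.ofReal (4 * Real.pi * w.im ^ (-(2 * s))) * C2) := by
  have h1 : ∀ m : ℤ, ∑' n : ℤ, zt a b w s m n ≤ (if m = 0 then C2 else 0) +
      (ENNReal.ofReal ((N:ℝ)⁻¹ * w.im ^ (1 - 2 * s) * BB s) * aterm a s m +
      ENNReal.ofReal (4 * Real.pi * w.im ^ (-(2 * s))) *
        (if m ≠ 0 then ENNReal.ofReal (|(m:ℝ)| ^ (-2 : ℝ)) else 0)) := by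
    intro m
    by_cases hm : m = 0
    · subst hm
      rw [if_pos rfl]
      exact le_add_right (inner_zero a b w hs.le)
    · rw [if_neg hm, if_pos hm, zero_add]
      by_cases hma : (m : ZMod N) = a
      · exact (inner_bound a b w hs hs2 hm hma).1
      · rw [inner_ne a b w s hma]; exact zero_le
  unfold Zf
  refine (ENNReal.tsum_le_tsum h1).trans (le_of_eq ?_)
  rw [ENNReal.tsum_add, ENNReal.tsum_add, ENNReal.tsum_mul_left, ENNReal.tsum_mul_left, tsum_ite_eq]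
  rfl

lemma Zf_ge (a b : ZMod N) (w : ℍ) {s : ℝ} (hs : 1 < s) (hs2 : s ≤ 2) :
    ENNReal.ofReal ((N:ℝ)⁻¹ * w.im ^ (1 - 2 * s) * BB s) * An a s ≤ Zf a b w s +
      ENNReal.ofReal (4 * Real.pi * w.im ^ (-(2 * s))) * C2 := by
  have h1 : ∀ m : ℤ, ENNReal.ofReal ((N:ℝ)⁻¹ * w.im ^ (1 - 2 * s) * BB s) * aterm a s m ≤
      ∑' n : ℤ, zt a b w s m n +
      ENNReal.ofReal (4 * Real.pi * w.im ^ (-(2 * s))) *
        (if m ≠ 0 then ENNReal.ofReal (|(m:ℝ)| ^ (-2 : ℝ)) else 0) := by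
    intro m
    by_cases hm : m = 0
    · subst hm
      have : aterm a s 0 = 0 := by unfold aterm; rw [if_neg (by tauto)]
      rw [this, mul_zero]; exact zero_le
    · rw [if_pos hm]
      by_cases hma : (m : ZMod N) = a
      · exact (inner_bound a b w hs hs2 hm hma).2
      · have : aterm a s m = 0 := by unfold aterm; rw [if_neg (by tauto)]
        rw [this, mul_zero]; exact zero_le
  unfold Zf An
  rw [← ENNReal.tsum_mul_left]
  refine (ENNReal.tsum_le_tsum h1).trans (le_of_eq ?_)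
  rw [ENNReal.tsum_add, ENNReal.tsum_mul_left]
  rfl

lemma tendsto_sm1 : Tendsto (fun s : ℝ => ENNReal.ofReal (s - 1)) (𝓝[>] 1) (𝓝 0) := by
  have h : Tendsto (fun s : ℝ => s - 1) (𝓝 1) (𝓝 (1 - 1)) :=
    (by fun_prop : Continuous fun s : ℝ => s - 1).tendsto 1
  have h2 := (ENNReal.continuous_ofReal.tendsto _).comp (h.mono_left (nhdsWithin_le_nhds (s := Set.Ioi 1)))
  simpa [Function.comp_def] using h2

lemma tendsto_rpow_v {v : ℝ} (hv : 0 < v) (a b : ℝ) :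
    Tendsto (fun s : ℝ => v ^ (a + b * s)) (𝓝[>] 1) (𝓝 (v ^ (a + b * 1))) := by
  have h1 : Tendsto (fun s : ℝ => a + b * s) (𝓝 1) (𝓝 (a + b * 1)) :=
    (by fun_prop : Continuous fun s : ℝ => a + b * s).tendsto 1
  exact (((Real.continuous_const_rpow hv.ne').tendsto _).comp h1).mono_left nhdsWithin_le_nhds

lemma Zf_tendsto (a b : ZMod N) (w : ℍ) :
    Tendsto (fun s : ℝ => ENNReal.ofReal (s - 1) * Zf a b w s) (𝓝[>] 1)
      (𝓝 (ENNReal.ofReal (Real.pi / (N ^ 2 * w.im)))) := by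
  have hv := w.im_pos
  have hN : (0:ℝ) < N := by exact_mod_cast Nat.pos_of_ne_zero (NeZero.ne N)
  -- main term
  have hL : Tendsto (fun s : ℝ => ENNReal.ofReal ((N:ℝ)⁻¹ * w.im ^ (1 - 2 * s) * BB s) *
      (ENNReal.ofReal (s - 1) * An a s)) (𝓝[>] 1)
      (𝓝 (ENNReal.ofReal (Real.pi / (N ^ 2 * w.im)))) := by
    have h1 : Tendsto (fun s : ℝ => (N:ℝ)⁻¹ * w.im ^ (1 - 2 * s) * BB s) (𝓝[>] 1)
        (𝓝 ((N:ℝ)⁻¹ * w.im ^ (1 + (-2) * 1 : ℝ) * Real.pi)) := by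
      have := (tendsto_rpow_v hv 1 (-2)).const_mul (N:ℝ)⁻¹
      refine (this.mul BB_tendsto).congr fun s => ?_
      rw [show 1 + -2 * s = 1 - 2 * s by ring]
    have h2 := ENNReal.Tendsto.mul ((ENNReal.continuous_ofReal.tendsto _).comp h1)
      (Or.inr (by simp)) (tendsto_An a) (Or.inr (by simp))
    have e : ENNReal.ofReal ((N:ℝ)⁻¹ * w.im ^ (1 + (-2) * 1 : ℝ) * Real.pi) *
        ENNReal.ofReal (N:ℝ)⁻¹ = ENNReal.ofReal (Real.pi / (N ^ 2 * w.im)) := by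
      rw [← ENNReal.ofReal_mul (by positivity)]
      congr 1
      rw [show (1 + (-2) * 1 : ℝ) = -1 by norm_num, Real.rpow_neg_one]
      field_simp
    rw [e] at h2
    exact h2
  have hE : Tendsto (fun s : ℝ => ENNReal.ofReal (s - 1) *
      (C2 + ENNReal.ofReal (4 * Real.pi * w.im ^ (-(2 * s))) * C2)) (𝓝[>] 1) (𝓝 0) := by
    have h1 : Tendsto (fun s : ℝ => 4 * Real.pi * w.im ^ (-(2 * s))) (𝓝[>] 1)
        (𝓝 (4 * Real.pi * w.im ^ (0 + (-2) * 1 : ℝ))) := by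
      refine ((tendsto_rpow_v hv 0 (-2)).const_mul (4 * Real.pi)).congr fun s => ?_
      rw [show 0 + -2 * s = -(2 * s) by ring]
    have h2 := ENNReal.Tendsto.mul_const ((ENNReal.continuous_ofReal.tendsto _).comp h1)
      (b := C2) (Or.inr C2_ne_top)
    have h3 := (tendsto_const_nhds (x := C2)).add h2
    have h4 := ENNReal.Tendsto.mul tendsto_sm1 (Or.inr ?_) h3 (Or.inr (by simp))
    · rw [zero_mul] at h4
      exact h4
    · exact ENNReal.add_ne_top.2 ⟨C2_ne_top, ENNReal.mul_ne_top (by simp) C2_ne_top⟩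
  have hup := hL.add hE
  have hlo := ENNReal.Tendsto.sub hL hE (Or.inl (by simp))
  rw [add_zero] at hup
  rw [tsub_zero] at hlo
  have h12 : ∀ᶠ s : ℝ in 𝓝[>] 1, 1 < s ∧ s ≤ 2 := by
    filter_upwards [Ioc_mem_nhdsGT (show (1:ℝ) < 2 by norm_num)] with s hs
    exact hs
  refine tendsto_of_tendsto_of_tendsto_of_le_of_le' hlo hup ?_ ?_
  · filter_upwards [h12] with s hs
    rw [tsub_le_iff_right]
    have := Zf_ge a b w hs.1 hs.2
    calc ENNReal.ofReal ((N:ℝ)⁻¹ * w.im ^ (1 - 2 * s) * BB s) * (ENNReal.ofReal (s - 1) * An a s)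
        = ENNReal.ofReal (s - 1) *
          (ENNReal.ofReal ((N:ℝ)⁻¹ * w.im ^ (1 - 2 * s) * BB s) * An a s) := by ring
      _ ≤ ENNReal.ofReal (s - 1) * (Zf a b w s +
            ENNReal.ofReal (4 * Real.pi * w.im ^ (-(2 * s))) * C2) := by gcongr
      _ ≤ ENNReal.ofReal (s - 1) * (Zf a b w s +
            (C2 + ENNReal.ofReal (4 * Real.pi * w.im ^ (-(2 * s))) * C2)) := by
          gcongr
          exact le_add_self
      _ = _ := by rw [mul_add]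
  · filter_upwards [h12] with s hs
    have := Zf_le a b w hs.1 hs.2
    calc ENNReal.ofReal (s - 1) * Zf a b w s ≤ ENNReal.ofReal (s - 1) *
        (C2 + (ENNReal.ofReal ((N:ℝ)⁻¹ * w.im ^ (1 - 2 * s) * BB s) * An a s +
      ENNReal.ofReal (4 * Real.pi * w.im ^ (-(2 * s))) * C2)) := by gcongr
      _ = _ := by ring

lemma Zf_dom : ∃ C : ℝ≥0∞, C ≠ ∞ ∧ ∀ᶠ s : ℝ in 𝓝[>] 1, ∀ (a b : ZMod N) (w : ℍ), 1 / 2 ≤ w.im →
    ENNReal.ofReal (s - 1) * Zf a b w s ≤ C := by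
  have hN : (0:ℝ) < N := by exact_mod_cast Nat.pos_of_ne_zero (NeZero.ne N)
  have hN1 : (1:ℝ) ≤ N := by exact_mod_cast Nat.pos_of_ne_zero (NeZero.ne N)
  have h12 : ∀ᶠ s : ℝ in 𝓝[>] 1, 1 < s ∧ s ≤ 2 := by
    filter_upwards [Ioc_mem_nhdsGT (show (1:ℝ) < 2 by norm_num)] with s hs
    exact hs
  have hA : ∀ᶠ s : ℝ in 𝓝[>] 1, ∀ a : ZMod N, ENNReal.ofReal (s - 1) * An a s ≤ 2 := by
    rw [eventually_all]
    intro a
    have := (tendsto_An a).eventually_lt_const (u := 2) (by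
      refine lt_of_le_of_lt (b := ENNReal.ofReal 1) (ENNReal.ofReal_le_ofReal (inv_le_one_of_one_le₀ hN1)) ?_
      rw [ENNReal.ofReal_one]; norm_num)
    filter_upwards [this] with s hs using hs.le
  refine ⟨C2 + (ENNReal.ofReal (8 * Real.pi) * 2 + ENNReal.ofReal (4 * Real.pi * 16) * C2), ?_, ?_⟩
  · refine ENNReal.add_ne_top.2 ⟨C2_ne_top, ENNReal.add_ne_top.2 ⟨?_, ?_⟩⟩
    · exact ENNReal.mul_ne_top ENNReal.ofReal_ne_top (by norm_num)
    · exact ENNReal.mul_ne_top ENNReal.ofReal_ne_top C2_ne_top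
  · filter_upwards [h12, hA] with s hs hAs a b w hw
    have h1 : ENNReal.ofReal (s - 1) ≤ 1 := by
      rw [← ENNReal.ofReal_one]; exact ENNReal.ofReal_le_ofReal (by linarith [hs.2])
    have hv := w.im_pos
    have h2 : w.im ^ (1 - 2 * s) ≤ 8 := by
      calc w.im ^ (1 - 2 * s) ≤ (1 / 2 : ℝ) ^ (1 - 2 * s) :=
            Real.rpow_le_rpow_of_nonpos (by norm_num) hw (by linarith [hs.1])
        _ ≤ (1 / 2 : ℝ) ^ (-3 : ℝ) :=
            Real.rpow_le_rpow_of_exponent_ge (by norm_num) (by norm_num) (by linarith [hs.2])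
        _ = 8 := by
            rw [show (-3:ℝ) = ((-3:ℤ):ℝ) by norm_num, Real.rpow_intCast]; norm_num
    have h3 : w.im ^ (-(2 * s)) ≤ 16 := by
      calc w.im ^ (-(2 * s)) ≤ (1 / 2 : ℝ) ^ (-(2 * s)) :=
            Real.rpow_le_rpow_of_nonpos (by norm_num) hw (by linarith [hs.1])
        _ ≤ (1 / 2 : ℝ) ^ (-4 : ℝ) :=
            Real.rpow_le_rpow_of_exponent_ge (by norm_num) (by norm_num) (by linarith [hs.2])
        _ = 16 := by
            rw [show (-4:ℝ) = ((-4:ℤ):ℝ) by norm_num, Real.rpow_intCast]; norm_num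
    have h4 : (N:ℝ)⁻¹ * w.im ^ (1 - 2 * s) * BB s ≤ 8 * Real.pi := by
      have hB := BB_le hs.1.le
      have hB0 := BB_nonneg s
      calc (N:ℝ)⁻¹ * w.im ^ (1 - 2 * s) * BB s ≤ 1 * 8 * Real.pi := by
            gcongr
            exact inv_le_one_of_one_le₀ hN1
        _ = _ := by ring
    calc ENNReal.ofReal (s - 1) * Zf a b w s ≤ ENNReal.ofReal (s - 1) *
        (C2 + (ENNReal.ofReal ((N:ℝ)⁻¹ * w.im ^ (1 - 2 * s) * BB s) * An a s +
      ENNReal.ofReal (4 * Real.pi * w.im ^ (-(2 * s))) * C2)) := by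
          gcongr; exact Zf_le a b w hs.1 hs.2
      _ = ENNReal.ofReal (s - 1) * C2 + (ENNReal.ofReal ((N:ℝ)⁻¹ * w.im ^ (1 - 2 * s) * BB s) *
          (ENNReal.ofReal (s - 1) * An a s) +
          ENNReal.ofReal (s - 1) * (ENNReal.ofReal (4 * Real.pi * w.im ^ (-(2 * s))) * C2)) := by
          ring
      _ ≤ 1 * C2 + (ENNReal.ofReal (8 * Real.pi) * 2 +
          1 * (ENNReal.ofReal (4 * Real.pi * 16) * C2)) := by
          gcongr
          exact hAs a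
      _ = _ := by rw [one_mul, one_mul]

end

end Pool.Agent.W165.RS
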