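import Mathlib
import Pool.Agent.H21.L.R_seed8.W165.RS.Cosets
import Pool.Agent.H21.L.R_seed8.W165.RS.Zeta2

/-! From coprime pairs to all pairs, in classes mod `N`. -/

namespace Pool.Agent.W165.RS

open MeasureTheory Filter Topology UpperHalfPlane
open scoped ENNReal MatrixGroups Modular

noncomputable section

set_option linter.unusedSectionVars false

variable {N : ℕ} [NeZero N]

/-- positive integers coprime to `N` -/
abbrev EE (N : ℕ) := {e : ℕ // 0 < e ∧ e.Coprime N}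

/-- `(e, r) ↦ e r` -/
def iot (x : EE N × RR) : ℤ × ℤ := ((x.1.1 : ℤ) * x.2.1.1, (x.1.1 : ℤ) * x.2.1.2)

lemma gcd_iot (x : EE N × RR) : Int.gcd (iot x).1 (iot x).2 = x.1.1 := by
  obtain ⟨⟨e, he, _⟩, ⟨⟨c, d⟩, h⟩⟩ := x
  simp only [iot]
  rw [Int.gcd_mul_left, Int.isCoprime_iff_gcd_eq_one.1 h]
  simp

lemma iot_inj : Function.Injective (iot (N := N)) := by
  intro x y h
  have h1 : x.1.1 = y.1.1 := by rw [← gcd_iot x, ← gcd_iot y, h]
  obtain ⟨⟨e, he, he'⟩, ⟨⟨c, d⟩, hx⟩⟩ := x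
  obtain ⟨⟨e', hf, hf'⟩, ⟨⟨c', d'⟩, hy⟩⟩ := y
  simp only at h1
  subst h1
  simp only [iot, Prod.mk.injEq] at h
  have he0 : (e : ℤ) ≠ 0 := by exact_mod_cast he.ne'
  have h2 := mul_left_cancel₀ he0 h.1
  have h3 := mul_left_cancel₀ he0 h.2
  subst h2 h3
  rfl

lemma iot_ne (x : EE N × RR) : iot x ≠ (0, 0) := by
  intro h
  have := gcd_iot x
  rw [h] at this
  simp at this
  exact x.1.2.1.ne this

/-- classes -/
def cls (p : ℤ × ℤ) : ZMod N × ZMod N := ((p.1 : ZMod N), (p.2 : ZMod N))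

lemma mem_range_iot {p : ℤ × ℤ} (hp : p ≠ (0, 0)) {x : EE N × RR} (hx : cls (N := N) (iot x) = cls p) :
    p ∈ Set.range (iot (N := N)) := by
  set g := Int.gcd p.1 p.2 with hg
  have hg0 : 0 < g := by
    rw [hg, Int.gcd_pos_iff]
    by_contra h
    push Not at h
    exact hp (Prod.ext h.1 h.2)
  have hgN : g.Coprime N := by
    rw [Nat.coprime_iff_gcd_eq_one]
    by_contra hne
    obtain ⟨ℓ, hℓ, hdiv⟩ := Nat.exists_prime_and_dvd hne
    have hℓg := hdiv.trans (Nat.gcd_dvd_left _ _)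
    have hℓN := hdiv.trans (Nat.gcd_dvd_right _ _)
    obtain ⟨⟨e, he, he'⟩, ⟨⟨c, d⟩, hcd⟩⟩ := x
    simp only [cls, iot, Prod.mk.injEq] at hx
    have key : ∀ c p1 : ℤ, (((e:ℤ) * c : ℤ) : ZMod N) = (p1 : ZMod N) → (ℓ : ℤ) ∣ p1 → (ℓ : ℤ) ∣ c := by
      intro c p1 h1 h2
      rw [ZMod.intCast_eq_intCast_iff] at h1
      have h3 : (ℓ : ℤ) ∣ (e : ℤ) * c - p1 := by
        have := h1.symm.dvd
        exact (Int.natCast_dvd_natCast.2 hℓN).trans this
      have h4 : (ℓ : ℤ) ∣ (e : ℤ) * c := by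
        have := dvd_add h3 h2
        simpa using this
      rcases (Nat.prime_iff_prime_int.1 hℓ).dvd_or_dvd h4 with h5 | h5
      · exfalso
        have h6 : ℓ ∣ e := Int.natCast_dvd_natCast.1 h5
        have h7 := Nat.dvd_gcd h6 hℓN
        rw [he'] at h7
        exact hℓ.one_lt.ne' (Nat.dvd_one.1 h7)
      · exact h5
    have hp1 : (ℓ : ℤ) ∣ p.1 := (Int.natCast_dvd_natCast.2 hℓg).trans (Int.gcd_dvd_left _ _)
    have hp2 : (ℓ : ℤ) ∣ p.2 := (Int.natCast_dvd_natCast.2 hℓg).trans (Int.gcd_dvd_right _ _)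
    have hc := key c p.1 hx.1 hp1
    have hd := key d p.2 hx.2 hp2
    have := hcd.isUnit_of_dvd' hc hd
    rw [Int.isUnit_iff_natAbs_eq] at this
    simp at this
    exact hℓ.one_lt.ne' this
  have hcop : IsCoprime (p.1 / g) (p.2 / g) := by
    rw [Int.isCoprime_iff_gcd_eq_one, hg]
    exact Int.gcd_div_gcd_div_gcd hg0
  refine ⟨(⟨g, hg0, hgN⟩, ⟨(p.1 / g, p.2 / g), hcop⟩), ?_⟩
  simp only [iot]
  exact Prod.ext (Int.mul_ediv_cancel' (Int.gcd_dvd_left _ _))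
    (Int.mul_ediv_cancel' (Int.gcd_dvd_right _ _))

/-- invariance under `Γ₀(N)` -/
def Inv (N : ℕ) (F : ℍ → ℝ≥0∞) : Prop :=
  ∀ γ ∈ CongruenceSubgroup.Gamma0 N, ∀ z : ℍ, F (γ • z) = F z

lemma F_eq_of_cls {F : ℍ → ℝ≥0∞} (hF : Inv N F) {x y : EE N × RR}
    (h : cls (N := N) (iot x) = cls (iot y)) (w : ℍ) : F (gam x.2 • w) = F (gam y.2 • w) := by
  set γ := gam x.2 * (gam y.2)⁻¹ with hγ
  have hmem : γ ∈ CongruenceSubgroup.Gamma0 N := by
    rw [CongruenceSubgroup.Gamma0_mem]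
    have e1 : γ 1 0 = (gam x.2) 1 0 * (gam y.2) 1 1 - (gam x.2) 1 1 * (gam y.2) 1 0 := by
      rw [hγ, Matrix.SpecialLinearGroup.coe_mul, Matrix.SpecialLinearGroup.coe_inv,
        Matrix.adjugate_fin_two]
      simp [Matrix.mul_apply, Fin.sum_univ_two]
      ring
    rw [e1, gam_10, gam_11, gam_10, gam_11]
    obtain ⟨⟨e, he, he'⟩, ⟨⟨c, d⟩, hcd⟩⟩ := x
    obtain ⟨⟨f, hf, hf'⟩, ⟨⟨c', d'⟩, hcd'⟩⟩ := y
    simp only [cls, iot, Prod.mk.injEq] at h
    obtain ⟨h1, h2⟩ := h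
    push_cast at h1 h2 ⊢
    have ue : IsUnit ((e : ℕ) : ZMod N) := (ZMod.isUnit_iff_coprime e N).2 he'
    have uf : IsUnit ((f : ℕ) : ZMod N) := (ZMod.isUnit_iff_coprime f N).2 hf'
    have h3 : ((e : ZMod N) * (f : ZMod N)) * ((c : ZMod N) * d' - d * c') = 0 := by
      have : ((e : ZMod N) * (f : ZMod N)) * ((c : ZMod N) * d' - d * c') =
        (e * c) * (f * d') - (e * d) * (f * c') := by ring
      rw [this, h1, h2]; ring
    exact (ue.mul uf).mul_right_eq_zero.1 h3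
  have : gam x.2 = γ * gam y.2 := by rw [hγ]; simp
  rw [this, mul_smul, hF γ hmem]

open Classical in
/-- the value of `F` on the class `(a,b)` -/
def GG (F : ℍ → ℝ≥0∞) (ab : ZMod N × ZMod N) (w : ℍ) : ℝ≥0∞ :=
  if h : ∃ x : EE N × RR, cls (N := N) (iot x) = ab then F (gam h.choose.2 • w) else 0

lemma GG_eq {F : ℍ → ℝ≥0∞} (hF : Inv N F) (x : EE N × RR) (w : ℍ) :
    GG F (cls (N := N) (iot x)) w = F (gam x.2 • w) := by
  unfold GG
  have h : ∃ y : EE N × RR, cls (N := N) (iot y) = cls (iot x) := ⟨x, rfl⟩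
  rw [dif_pos h]
  exact F_eq_of_cls hF h.choose_spec w

lemma measurable_GG {F : ℍ → ℝ≥0∞} (hF : Measurable F) (ab : ZMod N × ZMod N) :
    Measurable (GG F ab) := by
  classical
  unfold GG
  by_cases h : ∃ x : EE N × RR, cls (N := N) (iot x) = ab
  · simp only [dif_pos h]
    exact hF.comp (measurable_smul_SL _)
  · simp only [dif_neg h]
    exact measurable_const

/-- the coprime sum -/
def Pc (F : ℍ → ℝ≥0∞) (w : ℍ) (s : ℝ) : ℝ≥0∞ :=
  ∑' r : RR, F (gam r • w) * ENNReal.ofReal ((gam r • w).im ^ s)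

/-- `Σ_{(e,N)=1} e^{-2s}` -/
def LN (N : ℕ) (s : ℝ) : ℝ≥0∞ := ∑' e : EE N, ENNReal.ofReal ((e.1 : ℝ) ^ (-(2 * s)))

lemma LN_mul_Pc {F : ℍ → ℝ≥0∞} (hF : Inv N F) (w : ℍ) (s : ℝ) :
    LN N s * Pc F w s =
      ∑ ab : ZMod N × ZMod N, GG F ab w * (ENNReal.ofReal (w.im ^ s) * Zf ab.1 ab.2 w s) := by
  have hv := w.im_pos
  have step1 : LN N s * Pc F w s = ∑' x : EE N × RR, GG F (cls (N := N) (iot x)) w *
      (ENNReal.ofReal (w.im ^ s) * ENNReal.ofReal (qf w (iot x).1 (iot x).2 ^ (-s))) := by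
    unfold LN Pc
    rw [ENNReal.tsum_prod', ← ENNReal.tsum_mul_right]
    refine tsum_congr fun e => ?_
    rw [← ENNReal.tsum_mul_left]
    refine tsum_congr fun r => ?_
    rw [GG_eq hF (e, r) w]
    have he : (0:ℝ) < (e.1 : ℝ) := by exact_mod_cast e.2.1
    have e1 : qf w (iot (e, r)).1 (iot (e, r)).2 = (e.1 : ℝ) ^ 2 * ‖(r.1.1 : ℂ) * w + r.1.2‖ ^ 2 := by
      unfold qf iot
      simp only
      rw [← mul_pow]
      congr 1
      rw [← Complex.norm_natCast e.1, ← norm_mul]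
      congr 1
      push_cast
      ring
    have hq : 0 ≤ ‖(r.1.1 : ℂ) * w + r.1.2‖ ^ 2 := by positivity
    rw [e1, im_gam, ← ENNReal.ofReal_mul (by positivity), mul_left_comm,
      ← ENNReal.ofReal_mul (by positivity), Real.div_rpow hv.le hq,
      Real.mul_rpow (by positivity) hq, ← Real.rpow_natCast (e.1 : ℝ) 2, ← Real.rpow_mul he.le,
      Real.rpow_neg hq]
    congr 2
    push_cast
    rw [show (2 : ℝ) * -s = -(2 * s) by ring]
    ring
  have hsupp : Function.support (fun p : ℤ × ℤ => if p ≠ (0, 0) then GG F (cls (N := N) p) w *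
      (ENNReal.ofReal (w.im ^ s) * ENNReal.ofReal (qf w p.1 p.2 ^ (-s))) else 0) ⊆
      Set.range (iot (N := N)) := by
    intro p hp
    rw [Function.mem_support] at hp
    by_cases h0 : p ≠ (0, 0)
    · rw [if_pos h0] at hp
      have h1 : GG F (cls (N := N) p) w ≠ 0 := by
        intro h; apply hp; rw [h, zero_mul]
      unfold GG at h1
      by_cases h : ∃ x : EE N × RR, cls (N := N) (iot x) = cls p
      · obtain ⟨x, hx⟩ := h
        exact mem_range_iot h0 hx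
      · rw [dif_neg h] at h1
        exact absurd rfl h1
    · rw [if_neg h0] at hp
      exact absurd rfl hp
  have step2 := iot_inj.tsum_eq hsupp
  have e2 : ∀ x : EE N × RR, (if iot x ≠ (0, 0) then GG F (cls (N := N) (iot x)) w *
      (ENNReal.ofReal (w.im ^ s) * ENNReal.ofReal (qf w (iot x).1 (iot x).2 ^ (-s))) else 0) =
      GG F (cls (N := N) (iot x)) w *
      (ENNReal.ofReal (w.im ^ s) * ENNReal.ofReal (qf w (iot x).1 (iot x).2 ^ (-s))) :=
    fun x => if_pos (iot_ne x)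
  simp_rw [e2] at step2
  rw [step1, step2]
  have e3 : ∀ p : ℤ × ℤ, (if p ≠ (0, 0) then GG F (cls (N := N) p) w *
      (ENNReal.ofReal (w.im ^ s) * ENNReal.ofReal (qf w p.1 p.2 ^ (-s))) else 0) =
      ∑ ab : ZMod N × ZMod N, GG F ab w * (ENNReal.ofReal (w.im ^ s) *
        zt ab.1 ab.2 w s p.1 p.2) := by
    intro p
    by_cases h0 : p ≠ (0, 0)
    · rw [if_pos h0, Finset.sum_eq_single (cls (N := N) p)]
      · unfold zt
        rw [if_pos ⟨h0, rfl, rfl⟩]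
      · intro ab _ hab
        unfold zt
        rw [if_neg, mul_zero, mul_zero]
        rintro ⟨-, h1, h2⟩
        exact hab (Prod.ext h1.symm h2.symm)
      · intro h; exact absurd (Finset.mem_univ _) h
    · rw [if_neg h0]
      symm
      apply Finset.sum_eq_zero
      intro ab _
      unfold zt
      rw [if_neg (fun h => h0 h.1), mul_zero, mul_zero]
  simp_rw [e3]
  rw [Summable.tsum_finsetSum (fun _ _ => ENNReal.summable)]
  refine Finset.sum_congr rfl fun ab _ => ?_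
  rw [ENNReal.tsum_mul_left, ENNReal.tsum_mul_left, ENNReal.tsum_prod']
  rfl

end

end Pool.Agent.W165.RS
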