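import Mathlib
import Pool.Agent.H21.L.R_seed8.W165.RS.Unfold

/-! Integrals over `ℍ` in coordinates. -/

namespace Pool.Agent.W165.RS

open MeasureTheory Filter Topology UpperHalfPlane
open scoped ENNReal MatrixGroups Modular

noncomputable section

lemma lintegral_coe (f : ℂ → ℝ≥0∞) (hf : Measurable f) :
    ∫⁻ z : ℍ, f z = ∫⁻ z in {z : ℂ | 0 < z.im}, f z * ENNReal.ofReal ((1 / z.im) ^ 2) := by
  have hmp : MeasurePreserving UpperHalfPlane.coe (volume.comap UpperHalfPlane.coe)
      (volume.restrict (.range UpperHalfPlane.coe)) :=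
    ⟨measurable_coe, by rw [measurableEmbedding_coe.map_comap]⟩
  have hd : Measurable fun z : ℍ => ((1 / NNReal.mk z.im z.im_pos.le : NNReal) ^ 2) := by
    have h1 : Measurable fun z : ℍ => NNReal.mk z.im z.im_pos.le :=
      (continuous_im.subtype_mk _).measurable
    exact (measurable_const.div h1).pow_const 2
  have h0 := lintegral_withDensity_eq_lintegral_mul (volume.comap UpperHalfPlane.coe)
    hd.coe_nnreal_ennreal (g := fun z : ℍ => f z) (hf.comp measurable_coe)
  rw [volume_def, h0]
  have e : ∀ z : ℍ, (((fun z : ℍ => (((1 / NNReal.mk z.im z.im_pos.le : NNReal) ^ 2 : NNReal) : ℝ≥0∞)) *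
      fun z : ℍ => f z) z) = (fun z : ℂ => f z * ENNReal.ofReal ((1 / z.im) ^ 2)) z := by
    intro z
    simp only [Pi.mul_apply]
    rw [mul_comm]
    congr 1
    rw [ENNReal.ofReal, Real.toNNReal_pow (by have := z.im_pos; simp only [coe_im]; positivity)]
    congr 2
    apply NNReal.eq
    rw [Real.coe_toNNReal _ (by have := z.im_pos; simp only [coe_im]; positivity)]
    simp
  rw [lintegral_congr e]
  have hm : Measurable (fun z : ℂ => f z * ENNReal.ofReal ((1 / z.im) ^ 2)) := by
    refine hf.mul (ENNReal.measurable_ofReal.comp ?_)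
    exact (measurable_const.div Complex.measurable_im).pow_const 2
  rw [hmp.lintegral_comp hm]
  congr 2
  ext z
  simp only [Set.mem_range, Set.mem_ofPred_eq]
  constructor
  · rintro ⟨w, rfl⟩; exact w.im_pos
  · intro h; exact ⟨⟨z, h⟩, rfl⟩

lemma lintegral_coords (f : ℂ → ℝ≥0∞) (hf : Measurable f) :
    ∫⁻ z : ℍ, f z = ∫⁻ y in Set.Ioi (0:ℝ), ∫⁻ x : ℝ, f (x + y * Complex.I) *
      ENNReal.ofReal ((1 / y) ^ 2) := by
  rw [lintegral_coe f hf, ← lintegral_indicator (measurableSet_lt measurable_const Complex.measurable_im)]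
  have hm : Measurable (fun z : ℂ => f z * ENNReal.ofReal ((1 / z.im) ^ 2)) := by
    refine hf.mul (ENNReal.measurable_ofReal.comp ?_)
    exact (measurable_const.div Complex.measurable_im).pow_const 2
  have hm2 := hm.indicator (measurableSet_lt measurable_const Complex.measurable_im :
    MeasurableSet {z : ℂ | 0 < z.im})
  have h1 := lintegral_prod_symm (μ := (volume : Measure ℝ)) (ν := (volume : Measure ℝ))
    (fun p : ℝ × ℝ => {a : ℂ | 0 < a.im}.indicator (fun z => f z * ENNReal.ofReal ((1 / z.im) ^ 2))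
        (Complex.measurableEquivRealProd.symm p))
    (hm2.comp Complex.measurableEquivRealProd.symm.measurable).aemeasurable
  rw [← Complex.volume_preserving_equiv_real_prod.symm.lintegral_comp hm2, Measure.volume_eq_prod,
    h1, ← lintegral_indicator measurableSet_Ioi]
  refine lintegral_congr fun y => ?_
  by_cases hy : 0 < y
  · rw [Set.indicator_of_mem (show y ∈ Set.Ioi (0:ℝ) from hy)]
    refine lintegral_congr fun x => ?_
    rw [Set.indicator_of_mem (show Complex.measurableEquivRealProd.symm (x, y) ∈ {z : ℂ | 0 < z.im} from hy)]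
    have : Complex.measurableEquivRealProd.symm (x, y) = x + y * Complex.I := by
      apply Complex.ext <;> simp [Complex.measurableEquivRealProd]
    rw [this]
    congr 3
    simp
  · rw [Set.indicator_of_notMem (show y ∉ Set.Ioi (0:ℝ) from hy)]
    rw [lintegral_eq_zero_iff' ?_]
    · refine Eventually.of_forall fun x => ?_
      exact Set.indicator_of_notMem (show Complex.measurableEquivRealProd.symm (x, y) ∉ {z : ℂ | 0 < z.im} from hy) _
    · exact (hm2.comp (Complex.measurableEquivRealProd.symm.measurable.comp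
        (measurable_id.prodMk measurable_const))).aemeasurable

lemma lintegral_H (H : ℍ → ℝ≥0∞) (hH : Measurable H) :
    ∫⁻ z : ℍ, H z = ∫⁻ y in Set.Ioi (0:ℝ), ∫⁻ x : ℝ,
      Function.extend UpperHalfPlane.coe H 0 (x + y * Complex.I) * ENNReal.ofReal ((1 / y) ^ 2) := by
  have hm : Measurable (Function.extend UpperHalfPlane.coe H (0 : ℂ → ℝ≥0∞)) :=
    measurableEmbedding_coe.measurable_extend hH measurable_const
  rw [← lintegral_coords _ hm]
  refine lintegral_congr fun z => ?_
  rw [measurableEmbedding_coe.injective.extend_apply]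

lemma extend_apply' (H : ℍ → ℝ≥0∞) (x : ℝ) {y : ℝ} (hy : 0 < y) :
    Function.extend UpperHalfPlane.coe H 0 (x + y * Complex.I) =
      H ⟨x + y * Complex.I, by simpa using hy⟩ :=
  measurableEmbedding_coe.injective.extend_apply H 0 ⟨x + y * Complex.I, by simpa using hy⟩

lemma volume_fd_ne_top : volume (𝒟 : Set ℍ) ≠ ∞ := by
  have h1 : volume (𝒟 : Set ℍ) ≤ ∫⁻ z : ℍ, (fun z : ℂ => (Set.indicator
      {z : ℂ | 1 / 2 ≤ z.im ∧ |z.re| ≤ 1 / 2} (fun _ => 1) z : ℝ≥0∞)) z := by
    rw [← lintegral_indicator_one measurableSet_fd]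
    refine lintegral_mono fun z => ?_
    by_cases hz : z ∈ 𝒟
    · beta_reduce
      rw [Set.indicator_of_mem hz, Set.indicator_of_mem]
      · rfl
      · refine ⟨?_, hz.2⟩
        have := ModularGroup.three_le_four_mul_im_sq_of_mem_fd hz
        simp only [coe_im]
        nlinarith [z.im_pos]
    · rw [Set.indicator_of_notMem hz]; exact zero_le
  refine ne_top_of_le_ne_top ?_ h1
  have hms : MeasurableSet {z : ℂ | 1 / 2 ≤ z.im ∧ |z.re| ≤ 1 / 2} :=
    (measurableSet_le measurable_const Complex.measurable_im).inter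
      (measurableSet_le Complex.measurable_re.abs measurable_const)
  rw [lintegral_coords _ (measurable_const.indicator hms)]
  have h2 : ∀ y ∈ Set.Ioi (0:ℝ), (∫⁻ x : ℝ, (Set.indicator
      {z : ℂ | 1 / 2 ≤ z.im ∧ |z.re| ≤ 1 / 2} (fun _ => 1) ((x:ℂ) + y * Complex.I) : ℝ≥0∞) *
      ENNReal.ofReal ((1 / y) ^ 2)) ≤ ENNReal.ofReal ((1/2)^(-2:ℝ) * 4 * (1 + y ^ 2)⁻¹) := by
    intro y hy
    have e : ∀ x : ℝ, (Set.indicator
      {z : ℂ | 1 / 2 ≤ z.im ∧ |z.re| ≤ 1 / 2} (fun _ => 1) ((x:ℂ) + y * Complex.I) : ℝ≥0∞) *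
      ENNReal.ofReal ((1 / y) ^ 2) ≤ Set.indicator (Set.Icc (-(1/2):ℝ) (1/2))
        (fun _ => ENNReal.ofReal ((1/2)^(-2:ℝ) * 4 * (1 + y ^ 2)⁻¹)) x := by
      intro x
      by_cases h : ((x:ℂ) + y * Complex.I) ∈ {z : ℂ | 1 / 2 ≤ z.im ∧ |z.re| ≤ 1 / 2}
      · rw [Set.indicator_of_mem h, one_mul]
        simp only [Set.mem_ofPred_eq, Complex.add_im, Complex.ofReal_im, Complex.mul_im,
          Complex.ofReal_re, Complex.I_im, mul_one, Complex.I_re, mul_zero, add_zero, zero_add,
          Complex.add_re, Complex.mul_re, sub_self] at h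
        rw [Set.indicator_of_mem (by constructor <;> linarith [abs_le.1 h.2])]
        apply ENNReal.ofReal_le_ofReal
        have : ((1:ℝ)/2)^(-2:ℝ) = 4 := by
          rw [show (-2:ℝ) = ((-2:ℤ):ℝ) by norm_num, Real.rpow_intCast]; norm_num
        have hy' : 0 < y := hy
        rw [this, one_div, inv_pow, ← one_div, ← div_eq_mul_inv, div_le_div_iff₀ (by positivity) (by positivity)]
        nlinarith [h.1]
      · rw [Set.indicator_of_notMem h, zero_mul]; exact zero_le
    refine (lintegral_mono e).trans ?_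
    rw [lintegral_indicator measurableSet_Icc, setLIntegral_const, Real.volume_Icc]
    norm_num
  refine ne_top_of_le_ne_top ?_ (setLIntegral_mono' measurableSet_Ioi h2)
  have h3 : Integrable (fun y : ℝ => ((1:ℝ)/2)^(-2:ℝ) * 4 * (1 + y ^ 2)⁻¹) :=
    integrable_inv_one_add_sq.const_mul _
  have h4 := h3.lintegral_lt_top
  exact ((setLIntegral_le_lintegral _ _).trans_lt h4).ne

end

end Pool.Agent.W165.RS
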