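import Mathlib
import Pool.Agent.H21.L.R_seed8.W165.RS.Class
import Pool.Agent.H21.L.R_seed8.W165.RS.Meas

/-! The Rankin-Selberg limit for an abstract `Γ₀(N)`-invariant function. -/

namespace Pool.Agent.W165.RS

open MeasureTheory Filter Topology UpperHalfPlane
open scoped ENNReal MatrixGroups Modular

noncomputable section

set_option linter.unusedSectionVars false

variable {N : ℕ} [NeZero N]

lemma LN_summable (N : ℕ) {s : ℝ} (hs : 1 ≤ s) :
    Summable (fun e : EE N => (e.1 : ℝ) ^ (-(2 * s))) := by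
  have h : Summable (fun n : ℕ => (n : ℝ) ^ (-(2 * s))) :=
    Real.summable_nat_rpow.2 (by linarith)
  exact h.comp_injective Subtype.val_injective

lemma LN_eq (N : ℕ) {s : ℝ} (hs : 1 ≤ s) :
    LN N s = ENNReal.ofReal (∑' e : EE N, (e.1 : ℝ) ^ (-(2 * s))) := by
  unfold LN
  rw [ENNReal.ofReal_tsum_of_nonneg (fun e => by positivity) (LN_summable N hs)]

lemma LN_ne_top (N : ℕ) {s : ℝ} (hs : 1 ≤ s) : LN N s ≠ ∞ := by
  rw [LN_eq N hs]; exact ENNReal.ofReal_ne_top

lemma LN_ne_zero (N : ℕ) (s : ℝ) : LN N s ≠ 0 := by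
  unfold LN
  intro h
  rw [ENNReal.tsum_eq_zero] at h
  have := h ⟨1, one_pos, Nat.coprime_one_left N⟩
  simp at this

lemma LN_tendsto (N : ℕ) : Tendsto (LN N) (𝓝[>] 1) (𝓝 (LN N 1)) := by
  have h : Tendsto (fun s : ℝ => ∑' e : EE N, (e.1 : ℝ) ^ (-(2 * s))) (𝓝[>] 1)
      (𝓝 (∑' e : EE N, (e.1 : ℝ) ^ (-(2 * 1 : ℝ)))) := by
    apply tendsto_tsum_of_dominated_convergence (LN_summable N le_rfl)
    · intro e
      have he : (0:ℝ) < (e.1 : ℝ) := by exact_mod_cast e.2.1
      have := tendsto_rpow_v he 0 (-2)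
      refine (this.congr fun s => ?_).trans (le_of_eq ?_)
      · rw [show 0 + -2 * s = -(2 * s) by ring]
      · norm_num
    · filter_upwards [self_mem_nhdsWithin] with s hs e
      have he : (1:ℝ) ≤ (e.1 : ℝ) := by exact_mod_cast e.2.1
      rw [Real.norm_of_nonneg (by positivity)]
      exact Real.rpow_le_rpow_of_exponent_le he (by linarith [Set.mem_Ioi.1 hs])
  rw [LN_eq N le_rfl]
  refine ((ENNReal.continuous_ofReal.tendsto _).comp h).congr' ?_
  filter_upwards [self_mem_nhdsWithin] with s hs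
  rw [LN_eq N (le_of_lt hs)]
  rfl

lemma measurable_qf (m n : ℤ) : Measurable (fun w : ℍ => qf w m n) := by
  unfold qf
  have : Continuous fun w : ℍ => ‖(m : ℂ) * w + n‖ ^ 2 := by fun_prop
  exact this.measurable

lemma measurable_Zf (a b : ZMod N) (s : ℝ) : Measurable (fun w : ℍ => Zf a b w s) := by
  unfold Zf
  refine Measurable.tsum fun m => Measurable.tsum fun n => ?_
  unfold zt
  split_ifs
  · exact ENNReal.measurable_ofReal.comp ((measurable_qf m n).pow_const (-s))
  · exact measurable_const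

/-- decay at all cusps -/
def Dec (F : ℍ → ℝ≥0∞) : Prop :=
  ∀ g : SL(2, ℤ), ∃ K : ℝ≥0∞, K ≠ ∞ ∧ ∀ w : ℍ, 1 / 2 ≤ w.im → F (g • w) * ENNReal.ofReal (w.im ^ 2) ≤ K

lemma GG_dec {F : ℍ → ℝ≥0∞} (hD : Dec F) :
    ∃ K : ℝ≥0∞, K ≠ ∞ ∧ ∀ (ab : ZMod N × ZMod N) (w : ℍ), 1 / 2 ≤ w.im →
      GG F ab w * ENNReal.ofReal (w.im ^ 2) ≤ K := by
  have h : ∀ ab : ZMod N × ZMod N, ∃ K : ℝ≥0∞, K ≠ ∞ ∧ ∀ w : ℍ, 1 / 2 ≤ w.im →
      GG F ab w * ENNReal.ofReal (w.im ^ 2) ≤ K := by
    intro ab
    unfold GG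
    by_cases h : ∃ x : EE N × RR, cls (N := N) (iot x) = ab
    · simp only [dif_pos h]
      exact hD _
    · simp only [dif_neg h, zero_mul]
      exact ⟨0, by simp, fun w _ => le_rfl⟩
  choose K hK hK2 using h
  refine ⟨∑ ab, K ab, ENNReal.sum_ne_top.2 fun ab _ => hK ab, fun ab w hw => ?_⟩
  exact (hK2 ab w hw).trans (Finset.single_le_sum (f := K) (fun _ _ => zero_le) (Finset.mem_univ ab))

lemma im_fd {w : ℍ} (hw : w ∈ 𝒟) : 1 / 2 ≤ w.im := by
  have := ModularGroup.three_le_four_mul_im_sq_of_mem_fd hw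
  nlinarith [w.im_pos]

lemma inv_T {F : ℍ → ℝ≥0∞} (hF : Inv N F) (n : ℤ) (z : ℍ) :
    F (ModularGroup.T ^ n • z) = F z := by
  apply hF
  rw [CongruenceSubgroup.Gamma0_mem, ModularGroup.coe_T_zpow]
  simp

/-- The Rankin-Selberg limit. -/
theorem rs_limit {F : ℍ → ℝ≥0∞} (hm : Measurable F) (hF : Inv N F) (hD : Dec F)
    (hne : ∫⁻ z, F z ≠ 0) :
    ∃ c : ℝ≥0∞, c ≠ 0 ∧ c ≠ ∞ ∧ Tendsto (fun s : ℝ => ENNReal.ofReal (s - 1) *
      ∫⁻ z in SS, F z * ENNReal.ofReal (z.im ^ s)) (𝓝[>] 1) (𝓝 c) := by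
  have hN : (0:ℝ) < N := by exact_mod_cast Nat.pos_of_ne_zero (NeZero.ne N)
  -- the integrand after unfolding
  set Φ : ℝ → ℍ → ℝ≥0∞ := fun s z => phi z * ∑ ab : ZMod N × ZMod N,
    GG F ab z * (ENNReal.ofReal (z.im ^ s) * (ENNReal.ofReal (s - 1) * Zf ab.1 ab.2 z s)) with hΦ
  set Φ1 : ℍ → ℝ≥0∞ := fun z => phi z * ∑ ab : ZMod N × ZMod N,
    GG F ab z * (ENNReal.ofReal (z.im ^ (1:ℝ)) * ENNReal.ofReal (Real.pi / (N ^ 2 * z.im))) with hΦ1
  have him : Measurable (fun z : ℍ => z.im) := continuous_im.measurable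
  have hΦm : ∀ s, Measurable (Φ s) := by
    intro s
    refine measurable_phi.mul (Finset.measurable_sum _ fun ab _ => ?_)
    exact (measurable_GG hm ab).mul ((ENNReal.measurable_ofReal.comp (him.pow_const s)).mul
      (measurable_const.mul (measurable_Zf _ _ s)))
  have hI : ∀ s : ℝ, ENNReal.ofReal (s - 1) * (LN N s *
      ∫⁻ z in SS, F z * ENNReal.ofReal (z.im ^ s)) = ∫⁻ z, Φ s z := by
    intro s
    have h1 := unfold_strip (fun z => F z * ENNReal.ofReal (z.im ^ s))
      (hm.mul (ENNReal.measurable_ofReal.comp (him.pow_const s)))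
      (fun n z => by beta_reduce; rw [inv_T hF n z, ModularGroup.im_T_zpow_smul])
    rw [h1]
    have h2 : ∀ z : ℍ, Φ s z = ENNReal.ofReal (s - 1) * (LN N s * (phi z * Pc F z s)) := by
      intro z
      have h3 := LN_mul_Pc hF z s
      rw [show LN N s * (phi z * Pc F z s) = phi z * (LN N s * Pc F z s) by ring, h3, hΦ]
      simp only
      rw [mul_left_comm (ENNReal.ofReal (s - 1))]
      simp only [Finset.mul_sum]
      refine Finset.sum_congr rfl fun ab _ => ?_
      ring
    simp_rw [h2]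
    have hPm : Measurable fun z => phi z * Pc F z s := by
      refine measurable_phi.mul (Measurable.tsum fun r => ?_)
      exact (hm.comp (measurable_smul_SL _)).mul (ENNReal.measurable_ofReal.comp
        ((him.comp (measurable_smul_SL _)).pow_const s))
    have hPm2 : Measurable fun z => LN N s * (phi z * Pc F z s) := measurable_const.mul hPm
    rw [lintegral_const_mul _ hPm2, lintegral_const_mul _ hPm]
    rfl
  -- domination
  obtain ⟨C, hC, hCev⟩ := Zf_dom (N := N)
  obtain ⟨K, hK, hKb⟩ := GG_dec (N := N) hD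
  set B : ℝ≥0∞ := ∑ _ab : ZMod N × ZMod N, (K * 4) * C with hB
  have hBtop : B ≠ ∞ :=
    ENNReal.sum_ne_top.2 fun _ _ => ENNReal.mul_ne_top (ENNReal.mul_ne_top hK (by norm_num)) hC
  have hdom : ∀ᶠ s : ℝ in 𝓝[>] 1, ∀ᵐ z : ℍ, Φ s z ≤ (Set.indicator 𝒟 (fun _ => B) z : ℝ≥0∞) := by
    have h12 : ∀ᶠ s : ℝ in 𝓝[>] 1, 1 < s ∧ s ≤ 2 := by
      filter_upwards [Ioc_mem_nhdsGT (show (1:ℝ) < 2 by norm_num)] with s hs
      exact hs
    filter_upwards [hCev, h12] with s hs hs12
    refine Eventually.of_forall fun z => ?_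
    by_cases hz : z ∈ 𝒟
    · rw [Set.indicator_of_mem hz, hΦ]
      simp only
      have hp : phi z ≤ 1 := by
        have := phi_le z
        rwa [Set.indicator_of_mem hz] at this
      have hv := im_fd hz
      have hterm : ∀ ab : ZMod N × ZMod N, GG F ab z * (ENNReal.ofReal (z.im ^ s) *
          (ENNReal.ofReal (s - 1) * Zf ab.1 ab.2 z s)) ≤ (K * 4) * C := by
        intro ab
        have h1 : ENNReal.ofReal (z.im ^ s) ≤ ENNReal.ofReal (z.im ^ 2) * 4 := by
          rw [show (4 : ℝ≥0∞) = ENNReal.ofReal 4 by simp, ← ENNReal.ofReal_mul (by positivity)]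
          apply ENNReal.ofReal_le_ofReal
          rcases le_total 1 z.im with h | h
          · calc z.im ^ s ≤ z.im ^ (2:ℝ) := Real.rpow_le_rpow_of_exponent_le h hs12.2
              _ = z.im ^ 2 := Real.rpow_two _
              _ ≤ z.im ^ 2 * 4 := by nlinarith [sq_nonneg z.im]
          · calc z.im ^ s ≤ 1 := Real.rpow_le_one z.im_pos.le h (by linarith [hs12.1])
              _ ≤ z.im ^ 2 * 4 := by nlinarith
        calc GG F ab z * (ENNReal.ofReal (z.im ^ s) * (ENNReal.ofReal (s - 1) * Zf ab.1 ab.2 z s))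
            ≤ GG F ab z * ((ENNReal.ofReal (z.im ^ 2) * 4) * C) := by
              gcongr
              exact hs ab.1 ab.2 z hv
          _ = (GG F ab z * ENNReal.ofReal (z.im ^ 2)) * 4 * C := by ring
          _ ≤ K * 4 * C := by
              gcongr
              exact hKb ab z hv
      calc phi z * ∑ ab : ZMod N × ZMod N,
            GG F ab z * (ENNReal.ofReal (z.im ^ s) * (ENNReal.ofReal (s - 1) * Zf ab.1 ab.2 z s))
          ≤ 1 * ∑ _ab : ZMod N × ZMod N, (K * 4) * C :=
            mul_le_mul' hp (Finset.sum_le_sum fun ab _ => hterm ab)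
        _ = B := by rw [one_mul]
    · rw [Set.indicator_of_notMem hz, hΦ]
      simp only
      have : phi z = 0 := by unfold phi; rw [Set.indicator_of_notMem hz]
      rw [this, zero_mul]
  have hlimpt : ∀ᵐ z : ℍ, Tendsto (fun s => Φ s z) (𝓝[>] 1) (𝓝 (Φ1 z)) := by
    refine Eventually.of_forall fun z => ?_
    by_cases hz : z ∈ 𝒟
    · refine ENNReal.Tendsto.const_mul ?_ (Or.inr ?_)
      · refine tendsto_finsetSum _ fun ab _ => ?_
        have hG : GG F ab z ≠ ∞ := by
          intro h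
          have h1 := hKb ab z (im_fd hz)
          rw [h, ENNReal.top_mul] at h1
          · exact hK (top_le_iff.1 h1)
          · have := z.im_pos
            rw [ne_eq, ENNReal.ofReal_eq_zero, not_le]; positivity
        refine ENNReal.Tendsto.const_mul ?_ (Or.inr hG)
        refine ENNReal.Tendsto.mul ?_ (Or.inr (by simp)) (Zf_tendsto ab.1 ab.2 z) (Or.inr (by simp))
        have := tendsto_rpow_v z.im_pos 0 1
        simp only [zero_add, one_mul] at this
        exact (ENNReal.continuous_ofReal.tendsto _).comp this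
      · exact ne_top_of_le_ne_top (by simp : (1:ℝ≥0∞) ≠ ∞)
          ((phi_le z).trans (Set.indicator_le_self' (fun _ _ => zero_le) z))
    · have h0 : phi z = 0 := by unfold phi; rw [Set.indicator_of_notMem hz]
      simp only [hΦ, hΦ1, h0, zero_mul]
      exact tendsto_const_nhds
  have hBint : ∫⁻ z : ℍ, (Set.indicator 𝒟 (fun _ => B) z : ℝ≥0∞) ≠ ∞ := by
    rw [lintegral_indicator measurableSet_fd, setLIntegral_const]
    exact ENNReal.mul_ne_top hBtop volume_fd_ne_top
  have hlim : Tendsto (fun s => ∫⁻ z, Φ s z) (𝓝[>] 1) (𝓝 (∫⁻ z, Φ1 z)) :=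
    tendsto_lintegral_filter_of_dominated_convergence _ (Eventually.of_forall hΦm) hdom hBint
      hlimpt
  have hJtop : ∫⁻ z, Φ1 z ≠ ∞ := by
    refine ne_top_of_le_ne_top hBint ?_
    refine le_of_tendsto hlim ?_
    filter_upwards [hdom] with s hs
    exact lintegral_mono_ae hs
  have hJ0 : ∫⁻ z, Φ1 z ≠ 0 := by
    intro h0
    have hΦ1m : Measurable Φ1 := by
      refine measurable_phi.mul (Finset.measurable_sum _ fun ab _ => ?_)
      refine (measurable_GG hm ab).mul ((ENNReal.measurable_ofReal.comp (him.pow_const 1)).mul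
        (ENNReal.measurable_ofReal.comp ?_))
      exact measurable_const.div (measurable_const.mul him)
    rw [lintegral_eq_zero_iff hΦ1m] at h0
    apply hne
    have hm2 : Measurable fun z : ℍ => phi z * ∑' g : SL(2, ℤ), F (g • z) :=
      measurable_phi.mul (Measurable.tsum fun g => hm.comp (measurable_smul_SL g))
    rw [unfold F hm, lintegral_eq_zero_iff hm2]
    filter_upwards [h0] with z hz
    simp only [Pi.zero_apply, mul_eq_zero, hΦ1] at hz ⊢
    rcases hz with hz | hz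
    · exact Or.inl hz
    · right
      rw [ENNReal.tsum_eq_zero]
      intro g
      obtain ⟨n, hn⟩ := eq_T_of_botr (g := g) (h := gam (botr g)) (by rw [botr_gam])
      rw [hn, mul_smul, inv_T hF]
      rw [Finset.sum_eq_zero_iff] at hz
      have h1 := hz (cls (N := N) (iot (⟨1, one_pos, Nat.coprime_one_left N⟩, botr g)))
        (Finset.mem_univ _)
      rw [GG_eq hF] at h1
      rcases mul_eq_zero.1 h1 with h2 | h2
      · exact h2
      · exfalso
        have hv := z.im_pos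
        rw [← ENNReal.ofReal_mul (by positivity), ENNReal.ofReal_eq_zero] at h2
        have : 0 < z.im ^ (1:ℝ) * (Real.pi / (N ^ 2 * z.im)) := by positivity
        linarith
  refine ⟨(∫⁻ z, Φ1 z) / LN N 1, ?_, ?_, ?_⟩
  · exact ENNReal.div_ne_zero.2 ⟨hJ0, LN_ne_top N le_rfl⟩
  · exact ENNReal.div_ne_top hJtop (LN_ne_zero N 1)
  · have h1 := ENNReal.Tendsto.div hlim (Or.inl hJ0) (LN_tendsto N) (Or.inl (LN_ne_top N le_rfl))
    refine h1.congr' ?_
    filter_upwards [self_mem_nhdsWithin] with s hs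
    rw [← hI s, mul_left_comm, mul_comm (LN N s), mul_div_assoc,
      ENNReal.div_self (LN_ne_zero N s) (LN_ne_top N (le_of_lt hs)), mul_one]

end

end Pool.Agent.W165.RS
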