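import Mathlib
import Pool.Agent.H21.L.R_seed8.W165.RS.Limit

/-! The function `|f|² y^k` of a cusp form. -/

namespace Pool.Agent.W165.RS

open MeasureTheory Filter Topology UpperHalfPlane CongruenceSubgroup ConjAct Pointwise
open scoped ENNReal MatrixGroups Modular ModularForm

noncomputable section

set_option linter.unusedSectionVars false

variable {N : ℕ} [NeZero N] {k : ℤ} (f : CuspForm (Gamma0 N : Subgroup (GL (Fin 2) ℝ)) k)

/-- `|f|² y^k` -/
def FF (z : ℍ) : ℝ≥0∞ := ENNReal.ofReal (‖f z‖ ^ 2 * z.im ^ k)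

lemma FF_eq (z : ℍ) : FF f z = ENNReal.ofReal ‖petersson k f f z‖ := by
  unfold FF petersson
  congr 1
  rw [norm_mul, norm_mul, Complex.norm_conj, norm_zpow, Complex.norm_real,
    Real.norm_of_nonneg z.im_pos.le, sq]

lemma FF_meas : Measurable (FF f) := by
  have h : Continuous (fun z : ℍ => ‖petersson k f f z‖) := by
    have := petersson_continuous k (ModularFormClass.continuous f) (ModularFormClass.continuous f)
    exact this.norm
  have h2 : FF f = fun z => ENNReal.ofReal ‖petersson k f f z‖ := funext (FF_eq f)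
  rw [h2]
  exact ENNReal.measurable_ofReal.comp h.measurable

lemma FF_inv : Inv N (FF f) := by
  intro γ hγ z
  rw [FF_eq, FF_eq]
  congr 1
  exact SlashInvariantFormClass.norm_petersson_smul (Γ := (Gamma0 N : Subgroup (GL (Fin 2) ℝ)))
    (Subgroup.mem_map_of_mem _ hγ)

lemma FF_dec : Dec (FF f) := by
  intro g
  obtain ⟨B, hB⟩ := CuspFormClass.petersson_bounded_left k
    (Gamma0 N : Subgroup (GL (Fin 2) ℝ)) f f
  have hArith : ((toConjAct (g : GL (Fin 2) ℝ)⁻¹) •
      (Gamma0 N : Subgroup (GL (Fin 2) ℝ))).IsArithmetic := by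
    simpa [(show Rat.castHom ℝ = algebraMap ℚ ℝ by rfl), map_inv, Matrix.SpecialLinearGroup.map_mapGL]
      using! Subgroup.IsArithmetic.conj (Gamma0 N : Subgroup (GL (Fin 2) ℝ))
        (Matrix.SpecialLinearGroup.mapGL ℚ g)⁻¹
  obtain ⟨a, ha, hO⟩ := (CuspFormClass.zero_at_infty
    (CuspForm.translate f g)).petersson_exp_decay_left k _ (CuspForm.translate f g)
  obtain ⟨C, hC⟩ := hO.bound
  rw [atImInfty, eventually_comap, eventually_atTop] at hC
  obtain ⟨A, hA⟩ := hC
  -- `t² e^{-at}` is bounded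
  have hexp : ∀ t : ℝ, 0 ≤ t → t ^ 2 * Real.exp (-a * t) ≤ 2 / a ^ 2 := by
    intro t ht
    have h1 : (a * t) ^ 2 / 2 ≤ Real.exp (a * t) := by
      have := Real.quadratic_le_exp_of_nonneg (mul_nonneg ha.le ht)
      nlinarith [mul_nonneg ha.le ht]
    rw [show -a * t = -(a * t) by ring, Real.exp_neg, ← div_eq_mul_inv, div_le_div_iff₀
      (Real.exp_pos _) (by positivity)]
    nlinarith
  refine ⟨ENNReal.ofReal (|C| * (2 / a ^ 2) + |B| * |A| ^ 2), ENNReal.ofReal_ne_top, ?_⟩
  intro w hw
  rw [FF_eq, ← ENNReal.ofReal_mul (norm_nonneg _)]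
  apply ENNReal.ofReal_le_ofReal
  have hv := w.im_pos
  rcases le_total A w.im with h | h
  · have h1 := hA w.im h w rfl
    rw [CuspForm.coe_translate, petersson_slash_SL, Real.norm_of_nonneg (Real.exp_pos _).le] at h1
    have h2 := hexp w.im hv.le
    calc ‖petersson k f f (g • w)‖ * w.im ^ 2 ≤ (|C| * Real.exp (-a * w.im)) * w.im ^ 2 := by
          gcongr
          refine h1.trans ?_
          gcongr
          exact le_abs_self C
      _ = |C| * (w.im ^ 2 * Real.exp (-a * w.im)) := by ring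
      _ ≤ |C| * (2 / a ^ 2) := by gcongr
      _ ≤ _ := by have : 0 ≤ |B| * |A| ^ 2 := by positivity
                  linarith
  · have h1 := hB (g • w)
    have h3 : 0 ≤ |C| * (2 / a ^ 2) := by positivity
    have h2 : ‖petersson k f f (g • w)‖ * w.im ^ 2 ≤ |B| * |A| ^ 2 := by
      have hA' : w.im ≤ |A| := h.trans (le_abs_self A)
      have hB' : ‖petersson k f f (g • w)‖ ≤ |B| := h1.trans (le_abs_self B)
      gcongr
    linarith

end

end Pool.Agent.W165.RS
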