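import Mathlib
import Pool.Agent.H21.L.R_seed8.W165.RS.Form
import Pool.Agent.H21.L.R_seed8.W165.RS.Parseval

/-! The strip integral as a Dirichlet series. -/

namespace Pool.Agent.W165.RS

open MeasureTheory Filter Topology UpperHalfPlane CongruenceSubgroup
open scoped ENNReal MatrixGroups Modular ModularForm

noncomputable section

set_option linter.unusedSectionVars false

variable {N : ℕ} [NeZero N] {k : ℤ} (f : CuspForm (Gamma0 N : Subgroup (GL (Fin 2) ℝ)) k)

/-- Fourier coefficients -/
def ac (n : ℕ) : ℂ := (qExpansion 1 f).coeff n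

theorem one_mem0 : (1 : ℝ) ∈ (Gamma0 N : Subgroup (GL (Fin 2) ℝ)).strictPeriods := by
  rw [strictPeriods_Gamma0]
  exact AddSubgroup.mem_zmultiples 1

lemma hasSum_f (x : ℝ) {y : ℝ} (hy : 0 < y) :
    HasSum (fun n : ℕ => (ac f n * ((Real.exp (-(2 * Real.pi * n * y)) : ℝ) : ℂ)) * ee n x)
      (f ⟨x + y * Complex.I, by simpa using hy⟩) := by
  have h := ModularForm.hasSum_qExpansion (Γ := (Gamma0 N : Subgroup (GL (Fin 2) ℝ))) (k := k) f one_pos
    one_mem0 ⟨x + y * Complex.I, by simpa using hy⟩
  convert h using 2 with n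
  unfold Function.Periodic.qParam ee ac
  rw [mul_assoc]
  congr 1
  rw [← Complex.exp_nat_mul]
  push_cast
  rw [← Complex.exp_add]
  congr 1
  have hI : Complex.I ^ 2 = -1 := Complex.I_sq
  linear_combination (-(2 * Real.pi * n * y) : ℂ) * hI

lemma summable_f {y : ℝ} (hy : 0 < y) :
    Summable (fun n : ℕ => ‖ac f n * ((Real.exp (-(2 * Real.pi * n * y)) : ℝ) : ℂ)‖) := by
  have h := (hasSum_f f 0 hy).summable.norm
  refine h.congr fun n => ?_
  rw [norm_mul, norm_ee, mul_one]

lemma ac_zero : ac f 0 = 0 := by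
  unfold ac
  rw [CuspFormClass.qExpansion_coeff_zero (Γ := (Gamma0 N : Subgroup (GL (Fin 2) ℝ))) (k := k) f one_pos
    one_mem0]

lemma horocycle {y : ℝ} (hy : 0 < y) :
    ∫⁻ x in Set.Ico (0:ℝ) 1, ENNReal.ofReal (‖f ⟨x + y * Complex.I, by simpa using hy⟩‖ ^ 2) =
      ∑' n : ℕ, ENNReal.ofReal (‖ac f n‖ ^ 2 * Real.exp (-(4 * Real.pi * n * y))) := by
  have hp := parseval (summable_f f hy)
  have hgc : Continuous fun x : ℝ => ‖∑' n : ℕ, (ac f n * ((Real.exp (-(2 * Real.pi * n * y)) : ℝ) : ℂ)) *
      ee n x‖ ^ 2 := by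
    refine (Continuous.norm ?_).pow 2
    refine continuous_tsum (fun n => (continuous_const.mul (continuous_ee n))) (summable_f f hy) ?_
    intro n x
    rw [norm_mul (_ * _) (ee _ _), norm_ee, mul_one]
  have e1 : ∀ x : ℝ, f ⟨x + y * Complex.I, by simpa using hy⟩ =
      ∑' n : ℕ, (ac f n * ((Real.exp (-(2 * Real.pi * n * y)) : ℝ) : ℂ)) * ee n x :=
    fun x => (hasSum_f f x hy).tsum_eq.symm
  simp_rw [e1]
  rw [← ofReal_integral_eq_lintegral_ofReal (hgc.integrableOn_Icc.mono_set Set.Ico_subset_Icc_self)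
    (Eventually.of_forall fun x => by positivity)]
  rw [integral_Ico_eq_integral_Ioc, ← intervalIntegral.integral_of_le zero_le_one, ← hp.tsum_eq,
    ENNReal.ofReal_tsum_of_nonneg (fun n => by positivity) hp.summable]
  refine tsum_congr fun n => ?_
  congr 1
  rw [norm_mul, mul_pow, Complex.norm_real, Real.norm_of_nonneg (Real.exp_pos _).le,
    ← Real.exp_nat_mul]
  congr 2
  push_cast; ring

/-- the strip integral -/
lemma strip_eq {s : ℝ} (hs : 0 < s + k - 1) :
    ∫⁻ z in SS, FF f z * ENNReal.ofReal (z.im ^ s) =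
      ∑' n : ℕ, ENNReal.ofReal (‖ac f n‖ ^ 2 *
        ((1 / (4 * Real.pi * n)) ^ (s + k - 1) * Real.Gamma (s + k - 1))) := by
  have him : Measurable (fun z : ℍ => z.im) := continuous_im.measurable
  have hmH : Measurable (SS.indicator fun z : ℍ => FF f z * ENNReal.ofReal (z.im ^ s)) :=
    ((FF_meas f).mul (ENNReal.measurable_ofReal.comp (him.pow_const s))).indicator measurableSet_SS
  rw [← lintegral_indicator measurableSet_SS, lintegral_H _ hmH]
  have h1 : ∀ y ∈ Set.Ioi (0:ℝ), (∫⁻ x : ℝ, Function.extend UpperHalfPlane.coe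
      (SS.indicator fun z : ℍ => FF f z * ENNReal.ofReal (z.im ^ s)) 0 (x + y * Complex.I) *
        ENNReal.ofReal ((1 / y) ^ 2)) =
      ∑' n : ℕ, ENNReal.ofReal (‖ac f n‖ ^ 2 * (y ^ (s + k - 1 - 1) *
        Real.exp (-(4 * Real.pi * n * y)))) := by
    intro y hy
    have hy' : 0 < y := hy
    have e1 : ∀ x : ℝ, Function.extend UpperHalfPlane.coe
      (SS.indicator fun z : ℍ => FF f z * ENNReal.ofReal (z.im ^ s)) 0 (x + y * Complex.I) *
        ENNReal.ofReal ((1 / y) ^ 2) = (Set.Ico (0:ℝ) 1).indicator (fun x : ℝ =>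
        ENNReal.ofReal (‖f ⟨x + y * Complex.I, by simpa using hy'⟩‖ ^ 2) *
          ENNReal.ofReal (y ^ (s + k - 1 - 1))) x := by
      intro x
      rw [extend_apply' _ x hy']
      by_cases hx : x ∈ Set.Ico (0:ℝ) 1
      · rw [Set.indicator_of_mem hx, Set.indicator_of_mem]
        · unfold FF
          have e2 : (⟨x + y * Complex.I, by simpa using hy'⟩ : ℍ).im = y := by
            simp [UpperHalfPlane.im]
          rw [e2, ENNReal.ofReal_mul (by positivity), mul_assoc, mul_assoc,
            ← ENNReal.ofReal_mul (by positivity), ← ENNReal.ofReal_mul (by positivity)]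
          congr 2
          rw [← Real.rpow_intCast y k, one_div, inv_pow, ← Real.rpow_natCast y 2,
            ← Real.rpow_neg hy'.le, ← Real.rpow_add hy', ← Real.rpow_add hy']
          congr 1
          push_cast; ring
        · have e3 : (⟨x + y * Complex.I, by simpa using hy'⟩ : ℍ).re = x := by
            simp [UpperHalfPlane.re]
          show 0 ≤ _ ∧ _ < 1
          rw [e3]; exact hx
      · rw [Set.indicator_of_notMem hx, Set.indicator_of_notMem, zero_mul]
        intro h
        have e3 : (⟨x + y * Complex.I, by simpa using hy'⟩ : ℍ).re = x := by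
            simp [UpperHalfPlane.re]
        have h' : 0 ≤ (⟨x + y * Complex.I, by simpa using hy'⟩ : ℍ).re ∧
          (⟨x + y * Complex.I, by simpa using hy'⟩ : ℍ).re < 1 := h
        rw [e3] at h'
        exact hx h'
    simp_rw [e1]
    rw [lintegral_indicator measurableSet_Ico, lintegral_mul_const', horocycle f hy',
      ← ENNReal.tsum_mul_right]
    · refine tsum_congr fun n => ?_
      rw [← ENNReal.ofReal_mul (by positivity)]
      congr 1; ring
    · exact ENNReal.ofReal_ne_top
  rw [setLIntegral_congr_fun measurableSet_Ioi h1, lintegral_tsum]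
  · refine tsum_congr fun n => ?_
    rcases Nat.eq_zero_or_pos n with hn | hn
    · subst hn
      simp [ac_zero]
    · have hn' : (0:ℝ) < n := by exact_mod_cast hn
      have hr : 0 < 4 * Real.pi * n := by positivity
      have h2 := Real.integral_rpow_mul_exp_neg_mul_Ioi hs hr
      have hG := Real.Gamma_pos_of_pos hs
      have hint : IntegrableOn (fun t : ℝ => t ^ (s + k - 1 - 1) * Real.exp (-(4 * Real.pi * n * t)))
          (Set.Ioi 0) := by
        by_contra hcon
        rw [integral_undef hcon] at h2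
        have : 0 < (1 / (4 * Real.pi * n)) ^ (s + k - 1) * Real.Gamma (s + k - 1) := by positivity
        linarith
      rw [← h2, ← integral_const_mul, ofReal_integral_eq_lintegral_ofReal (hint.const_mul _)]
      filter_upwards [ae_restrict_mem measurableSet_Ioi] with t ht
      have : (0:ℝ) < t := ht
      simp only [Pi.zero_apply]
      positivity
  · intro n
    refine (ENNReal.measurable_ofReal.comp ?_).aemeasurable
    refine measurable_const.mul ?_
    exact (measurable_id.pow_const _).mul (by fun_prop)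

end

end Pool.Agent.W165.RS
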